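import Mathlib

/-!
# The landing lemma (MP_75608d_al)

`z : ι → Perm α` is a uniformly random family of permutations, `H` a finite set of known edges
`(i, x, y)` (meaning `z i x = y`), `ZZ H` the set of all `z` containing `H`. Words are lists of
letters `(i, true)` (apply `z i`) and `(i, false)` (apply `(z i)⁻¹`), the head is applied first.
-/

set_option autoImplicit false
set_option linter.unusedSectionVars false

namespace Pool.Agent.Helper60.FS

open Finset Equiv

variable {ι α : Type} [Fintype ι] [DecidableEq ι] [Fintype α] [DecidableEq α]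

/-- the action of a letter -/
def act (z : ι → Perm α) (l : ι × Bool) (v : α) : α :=
  if l.2 = true then z l.1 v else (z l.1).symm v

/-- the edge used by the letter `l` on its way from `v` to `u` -/
def edge (l : ι × Bool) (v u : α) : ι × α × α :=
  if l.2 = true then (l.1, v, u) else (l.1, u, v)

/-- the end of the path -/
def run (z : ι → Perm α) : List (ι × Bool) → α → α
  | [], v => v
  | l :: w, v => run z w (act z l v)

/-- the edges of the path -/
def pe (z : ι → Perm α) : List (ι × Bool) → α → Finset (ι × α × α)
  | [], _ => ∅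
  | l :: w, v => insert (edge l v (act z l v)) (pe z w (act z l v))

/-- the families containing the known edges -/
def ZZ (H : Finset (ι × α × α)) : Finset (ι → Perm α) :=
  univ.filter fun z => ∀ e ∈ H, z e.1 e.2.1 = e.2.2

theorem mem_ZZ (H : Finset (ι × α × α)) (z : ι → Perm α) :
    z ∈ ZZ H ↔ ∀ e ∈ H, z e.1 e.2.1 = e.2.2 := by
  unfold ZZ
  rw [mem_filter]
  exact ⟨fun h => h.2, fun h => ⟨mem_univ _, h⟩⟩

theorem act_iff (z : ι → Perm α) (l : ι × Bool) (v u : α) :
    act z l v = u ↔ z (edge l v u).1 (edge l v u).2.1 = (edge l v u).2.2 := by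
  obtain ⟨i, s⟩ := l
  cases s
  · simp only [act, edge, Bool.false_eq_true, if_false]
    rw [Equiv.symm_apply_eq]
    exact eq_comm
  · simp only [act, edge, if_true]

theorem act_inj (z : ι → Perm α) (l : ι × Bool) {v v' : α} (h : act z l v = act z l v') :
    v = v' := by
  obtain ⟨i, s⟩ := l
  cases s
  · simp only [act, Bool.false_eq_true, if_false] at h
    exact (z i).symm.injective h
  · simp only [act, if_true] at h
    exact (z i).injective h

theorem edge_inj {l : ι × Bool} {v u v' u' : α} (h : edge l v u = edge l v' u') :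
    v = v' ∧ u = u' := by
  obtain ⟨i, s⟩ := l
  cases s
  · simp only [edge, Bool.false_eq_true, if_false, Prod.mk.injEq] at h
    exact ⟨h.2.2, h.2.1⟩
  · simp only [edge, if_true, Prod.mk.injEq] at h
    exact ⟨h.2.1, h.2.2⟩

theorem mem_ZZ_insert (H : Finset (ι × α × α)) (l : ι × Bool) (v u : α) (z : ι → Perm α) :
    z ∈ ZZ (insert (edge l v u) H) ↔ z ∈ ZZ H ∧ act z l v = u := by
  rw [mem_ZZ, mem_ZZ, act_iff]
  constructor
  · intro h
    exact ⟨fun e he => h e (mem_insert_of_mem he), h _ (mem_insert_self _ _)⟩
  · rintro ⟨h1, h2⟩ e he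
    rcases mem_insert.1 he with rfl | he
    · exact h2
    · exact h1 e he

theorem act_of_mem {H : Finset (ι × α × α)} {z : ι → Perm α} (hz : z ∈ ZZ H) {l : ι × Bool}
    {v u : α} (h : edge l v u ∈ H) : act z l v = u :=
  (act_iff z l v u).2 ((mem_ZZ H z).1 hz _ h)

theorem ZZ_anti {H H' : Finset (ι × α × α)} (h : H ⊆ H') : ZZ H' ⊆ ZZ H := by
  intro z hz
  rw [mem_ZZ] at hz ⊢
  exact fun e he => hz e (h he)

theorem pe_mem (z : ι → Perm α) : ∀ (w : List (ι × Bool)) (v : α), z ∈ ZZ (pe z w v)
  | [], _ => by
    rw [mem_ZZ]
    intro e he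
    exact absurd he (notMem_empty _)
  | l :: w, v => by
    show z ∈ ZZ (insert (edge l v (act z l v)) (pe z w (act z l v)))
    rw [mem_ZZ_insert]
    exact ⟨pe_mem z w _, rfl⟩

/-- known paths do not depend on the family -/
theorem known_congr {H : Finset (ι × α × α)} {z z' : ι → Perm α} (hz' : z' ∈ ZZ H) :
    ∀ (w : List (ι × Bool)) (v : α), pe z w v ⊆ H → pe z' w v = pe z w v ∧
      run z' w v = run z w v
  | [], _, _ => ⟨rfl, rfl⟩
  | l :: w, v, h => by
    have h1 : edge l v (act z l v) ∈ H := h (mem_insert_self _ _)
    have h2 : act z' l v = act z l v := act_of_mem hz' h1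
    have h3 := known_congr hz' w (act z l v) fun e he => h (mem_insert_of_mem he)
    constructor
    · show insert (edge l v (act z' l v)) (pe z' w (act z' l v)) = _
      rw [h2, h3.1]
      rfl
    · show run z' w (act z' l v) = _
      rw [h2, h3.2]
      rfl

theorem run_inj (z : ι → Perm α) : ∀ (w : List (ι × Bool)) {v v' : α},
    run z w v = run z w v' → v = v'
  | [], _, _, h => h
  | _ :: w, _, _, h => act_inj z _ (run_inj z w h)

theorem run_append (z : ι → Perm α) : ∀ (w w' : List (ι × Bool)) (v : α),
    run z (w ++ w') v = run z w' (run z w v)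
  | [], _, _ => rfl
  | l :: w, w', v => run_append z w w' (act z l v)

theorem card_pe_le (z : ι → Perm α) : ∀ (w : List (ι × Bool)) (v : α),
    (pe z w v).card ≤ w.length
  | [], _ => le_rfl
  | l :: w, v => (card_insert_le _ _).trans (by
      rw [List.length_cons]
      exact Nat.succ_le_succ (card_pe_le z w _))

/-- the exchange of two unused values -/
theorem card_ZZ_insert_le (H : Finset (ι × α × α)) (l : ι × Bool) (v u : α)
    (hv : ∀ u', edge l v u' ∉ H) :
    (ZZ (insert (edge l v u) H)).card * (Fintype.card α - H.card) ≤ (ZZ H).card := by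
  classical
  -- used values
  obtain ⟨U, hU⟩ : ∃ U : Finset α, U = univ.filter fun u' => ∃ x, edge l x u' ∈ H := ⟨_, rfl⟩
  by_cases hu : u ∈ U
  · -- no such family
    have h0 : (ZZ (insert (edge l v u) H)).card = 0 := by
      rw [card_eq_zero, eq_empty_iff_forall_notMem]
      intro z hz
      rw [mem_ZZ_insert] at hz
      rw [hU, mem_filter] at hu
      obtain ⟨-, x, hx⟩ := hu
      have h1 := act_of_mem hz.1 hx
      have h2 : x = v := act_inj z l (h1.trans hz.2.symm)
      rw [h2] at hx
      exact hv u hx
    rw [h0, zero_mul]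
    exact Nat.zero_le _
  · have hUc : U.card ≤ H.card := by
      have h1 : U ⊆ H.image fun e => if l.2 = true then e.2.2 else e.2.1 := by
        intro u' hu'
        rw [hU, mem_filter] at hu'
        obtain ⟨-, x, hx⟩ := hu'
        rw [mem_image]
        refine ⟨_, hx, ?_⟩
        unfold edge
        split_ifs <;> rfl
      exact (card_le_card h1).trans card_image_le
    -- all unused values are equally likely
    have hsw : ∀ u' ∉ U, (ZZ (insert (edge l v u) H)).card ≤
        (ZZ (insert (edge l v u') H)).card := by
      intro u' hu'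
      -- exchange of `u` and `u'`
      refine card_le_card_of_injOn (fun z => Function.update z l.1
        (if l.2 = true then (z l.1).trans (Equiv.swap u u') else
          (Equiv.swap u u').trans (z l.1))) ?_ ?_
      · intro z hz
        have hz' := (mem_ZZ_insert H l v u z).1 (mem_coe.1 hz)
        refine mem_coe.2 ((mem_ZZ_insert H l v u' _).2 ⟨?_, ?_⟩)
        · rw [mem_ZZ]
          intro e he
          by_cases hi : e.1 = l.1
          · rw [hi]
            simp only [Function.update_self]
            have h1 : z l.1 e.2.1 = e.2.2 := by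
              rw [← hi]
              exact (mem_ZZ H z).1 hz'.1 e he
            have hne : ∀ y ∉ U, (if l.2 = true then e.2.2 else e.2.1) ≠ y := by
              intro y hy hey
              apply hy
              rw [hU, mem_filter]
              refine ⟨mem_univ _, if l.2 = true then e.2.1 else e.2.2, ?_⟩
              have h2 : edge l (if l.2 = true then e.2.1 else e.2.2) y = e := by
                rw [← hey]
                unfold edge
                rw [← hi]
                split_ifs <;> rfl
              rw [h2]
              exact he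
            have h3 := hne u hu
            have h4 := hne u' hu'
            split_ifs with hs
            · rw [if_pos hs] at h3 h4
              rw [Equiv.trans_apply, h1]
              exact Equiv.swap_apply_of_ne_of_ne h3 h4
            · rw [if_neg hs] at h3 h4
              rw [Equiv.trans_apply, Equiv.swap_apply_of_ne_of_ne h3 h4, h1]
          · beta_reduce
            rw [Function.update_of_ne hi]
            exact (mem_ZZ H z).1 hz'.1 e he
        · have h1 := hz'.2
          unfold act at h1 ⊢
          simp only [Function.update_self]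
          split_ifs with hs
          · rw [if_pos hs] at h1
            rw [Equiv.trans_apply, h1, Equiv.swap_apply_left]
          · rw [if_neg hs] at h1
            rw [Equiv.symm_trans_apply, h1, Equiv.symm_swap, Equiv.swap_apply_left]
      · intro z _ z' _ h
        have h1 := congrFun h
        funext j
        by_cases hj : j = l.1
        · rw [hj]
          have h2 := h1 l.1
          simp only [Function.update_self] at h2
          split_ifs at h2 with hs
          · ext x
            have h3 := congrArg (fun σ : Perm α => (Equiv.swap u u') (σ x)) h2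
            simpa using h3
          · ext x
            have h3 := congrArg (fun σ : Perm α => σ ((Equiv.swap u u') x)) h2
            simpa using h3
        · have h2 := h1 j
          simp only [Function.update_of_ne hj] at h2
          exact h2
    -- sum over the unused values
    have hsum : ∑ u' ∈ univ \ U, (ZZ (insert (edge l v u') H)).card ≤ (ZZ H).card := by
      rw [← card_biUnion]
      · apply card_le_card
        intro z hz
        rw [mem_biUnion] at hz
        obtain ⟨u', -, hz⟩ := hz
        exact ((mem_ZZ_insert H l v u' z).1 hz).1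
      · intro a _ b _ hab
        rw [Function.onFun, disjoint_left]
        intro z hz hz'
        exact hab (((mem_ZZ_insert H l v a z).1 hz).2.symm.trans
          ((mem_ZZ_insert H l v b z).1 hz').2)
    have h1 : ∑ _u' ∈ univ \ U, (ZZ (insert (edge l v u) H)).card ≤
        ∑ u' ∈ univ \ U, (ZZ (insert (edge l v u') H)).card := by
      apply sum_le_sum
      intro u' hu'
      exact hsw u' (mem_sdiff.1 hu').2
    rw [sum_const, smul_eq_mul, card_univ_sdiff] at h1
    calc (ZZ (insert (edge l v u) H)).card * (Fintype.card α - H.card) ≤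
        (ZZ (insert (edge l v u) H)).card * (Fintype.card α - U.card) :=
          Nat.mul_le_mul_left _ (by omega)
      _ = (Fintype.card α - U.card) * (ZZ (insert (edge l v u) H)).card := mul_comm _ _
      _ ≤ _ := h1.trans hsum

/-- exposing one edge -/
theorem sum_ZZ_split (H : Finset (ι × α × α)) (l : ι × Bool) (v : α) (f : (ι → Perm α) → ℝ) :
    ∑ z ∈ ZZ H, f z = ∑ u, ∑ z ∈ ZZ (insert (edge l v u) H), f z := by
  classical
  rw [← sum_fiberwise_of_maps_to (g := fun z => act z l v) (t := univ) fun _ _ => mem_univ _]
  apply sum_congr rfl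
  intro u _
  apply sum_congr _ fun _ _ => rfl
  ext z
  rw [mem_filter, mem_ZZ_insert]

/-- the starts whose path is known and ends in `R` -/
def TT (z : ι → Perm α) (H : Finset (ι × α × α)) (w : List (ι × Bool)) (R : Finset α) : Finset α :=
  univ.filter fun u => pe z w u ⊆ H ∧ run z w u ∈ R

theorem mem_TT {z : ι → Perm α} {H : Finset (ι × α × α)} {w : List (ι × Bool)} {R : Finset α}
    {u : α} : u ∈ TT z H w R ↔ pe z w u ⊆ H ∧ run z w u ∈ R := by
  unfold TT
  rw [mem_filter]
  exact ⟨fun h => h.2, fun h => ⟨mem_univ _, h⟩⟩

theorem TT_card_le (z : ι → Perm α) (H : Finset (ι × α × α)) (w : List (ι × Bool))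
    (R : Finset α) : (TT z H w R).card ≤ R.card :=
  card_le_card_of_injOn (run z w) (fun _ hu => mem_coe.2 (mem_TT.1 (mem_coe.1 hu)).2)
    fun _ _ _ _ h => run_inj z w h

/-- the first step of known paths -/
theorem TT_image (z : ι → Perm α) (H : Finset (ι × α × α)) (l : ι × Bool)
    (w : List (ι × Bool)) (R : Finset α) :
    (TT z H (l :: w) R).image (act z l) ⊆ TT z H w R := by
  intro u hu
  rw [mem_image] at hu
  obtain ⟨x, hx, rfl⟩ := hu
  rw [mem_TT] at hx ⊢
  exact ⟨fun e he => hx.1 (mem_insert_of_mem he), hx.2⟩

theorem TT_step_card (z : ι → Perm α) (H : Finset (ι × α × α)) (l : ι × Bool)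
    (w : List (ι × Bool)) (R : Finset α) :
    ((TT z H (l :: w) R).image (act z l)).card = (TT z H (l :: w) R).card :=
  card_image_of_injOn fun _ _ _ _ h => act_inj z l h

/-- every nontrivial subword has few fixed points -/
def FIX (z : ι → Perm α) (w : List (ι × Bool)) (F0 : ℕ) : Prop :=
  ∀ g, g <:+: w → g ≠ [] → (univ.filter fun u => run z g u = u).card ≤ F0

theorem FIX_tail {z : ι → Perm α} {l : ι × Bool} {w : List (ι × Bool)} {F0 : ℕ}
    (h : FIX z (l :: w) F0) : FIX z w F0 :=
  fun g hg hg0 => h g (hg.trans (List.suffix_cons l w).isInfix) hg0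

/-- the first unknown edge of a path -/
theorem first_unknown (z : ι → Perm α) (H : Finset (ι × α × α)) :
    ∀ (w : List (ι × Bool)) (u : α), ¬ pe z w u ⊆ H → ∃ g l' w'', w = g ++ l' :: w'' ∧
      pe z g u ⊆ H ∧ edge l' (run z g u) (act z l' (run z g u)) ∉ H
  | [], _, h => absurd (empty_subset _) h
  | l :: w, u, h => by
    by_cases h1 : edge l u (act z l u) ∈ H
    · have h2 : ¬ pe z w (act z l u) ⊆ H := fun h3 => h (insert_subset h1 h3)
      obtain ⟨g, l', w'', hw, hg, he⟩ := first_unknown z H w (act z l u) h2
      exact ⟨l :: g, l', w'', by rw [hw]; rfl, insert_subset h1 hg, he⟩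
    · exact ⟨[], l, w, rfl, empty_subset _, h1⟩

theorem edge_mem_pe (z : ι → Perm α) : ∀ (g : List (ι × Bool)) (l' : ι × Bool)
    (w'' : List (ι × Bool)) (u : α),
    edge l' (run z g u) (act z l' (run z g u)) ∈ pe z (g ++ l' :: w'') u
  | [], _, _, _ => mem_insert_self _ _
  | _ :: g, l', w'', _ => mem_insert_of_mem (edge_mem_pe z g l' w'' _)

/-- the landing points of a fresh step after which everything is known -/
theorem card_good (z₀ : ι → Perm α) (H : Finset (ι × α × α)) (hz₀ : z₀ ∈ ZZ H)
    (l : ι × Bool) (w : List (ι × Bool)) (hred : FreeGroup.IsReduced (l :: w)) (R : Finset α)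
    (F0 : ℕ) (hF : FIX z₀ w F0) (v : α) (hv : ∀ u', edge l v u' ∉ H) (S : Finset α)
    (hS : ∀ u ∈ S, ∃ z ∈ ZZ (insert (edge l v u) H), pe z w u ⊆ insert (edge l v u) H ∧
      run z w u ∈ R) :
    S.card + (TT z₀ H (l :: w) R).card ≤ (TT z₀ H w R).card + w.length * (1 + F0) := by
  classical
  -- the special points of a prefix of length `j`
  obtain ⟨Sp, hSp⟩ : ∃ Sp : ℕ → Finset α, Sp = fun j =>
      (univ.filter fun u => run z₀ (w.take j) u = v) ∪
        (if w.take j = [] then ∅ else univ.filter fun u => run z₀ (w.take j) u = u) := ⟨_, rfl⟩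
  have hSpc : ∀ j, (Sp j).card ≤ 1 + F0 := by
    intro j
    rw [hSp]
    refine (card_union_le _ _).trans (Nat.add_le_add ?_ ?_)
    · rw [card_le_one]
      intro a ha b hb
      rw [mem_filter] at ha hb
      exact run_inj z₀ _ (ha.2.trans hb.2.symm)
    · split_ifs with h
      · exact Nat.zero_le _
      · exact hF _ (List.take_prefix j w).isInfix h
  have hsub : S ⊆ (TT z₀ H w R \ (TT z₀ H (l :: w) R).image (act z₀ l)) ∪
      (range w.length).biUnion Sp := by
    intro u hu
    obtain ⟨z, hz, hk, hr⟩ := hS u hu
    rw [mem_ZZ_insert] at hz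
    rw [mem_union]
    by_cases h1 : pe z w u ⊆ H
    · left
      have h2 := known_congr hz₀ w u h1
      rw [mem_sdiff, mem_TT, h2.1, h2.2]
      refine ⟨⟨h1, hr⟩, ?_⟩
      intro h3
      rw [mem_image] at h3
      obtain ⟨x, hx, hxu⟩ := h3
      rw [mem_TT] at hx
      have h4 : edge l x (act z₀ l x) ∈ H := hx.1 (mem_insert_self _ _)
      rw [hxu] at h4
      have h5 : act z l x = u := act_of_mem hz.1 h4
      have h6 : x = v := act_inj z l (h5.trans hz.2.symm)
      rw [h6] at h4
      exact hv u h4
    · right
      obtain ⟨g, l', w'', hw, hg, he⟩ := first_unknown z H w u h1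
      have h2 : edge l' (run z g u) (act z l' (run z g u)) ∈ insert (edge l v u) H :=
        hk (by rw [hw]; exact edge_mem_pe z g l' w'' u)
      have h3 : edge l' (run z g u) (act z l' (run z g u)) = edge l v u :=
        (mem_insert.1 h2).resolve_right he
      have h4 := known_congr hz₀ g u hg
      have htake : w.take g.length = g := by
        rw [hw]
        exact List.take_left
      rw [mem_biUnion]
      refine ⟨g.length, ?_, ?_⟩
      · rw [mem_range, hw, List.length_append, List.length_cons]
        omega
      · rw [hSp]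
        simp only [htake, mem_union]
        have h5 : l'.1 = l.1 := by
          have := congrArg Prod.fst h3
          unfold edge at this
          split_ifs at this <;> exact this
        by_cases hs : l'.2 = l.2
        · left
          have hll : l' = l := Prod.ext h5 hs
          rw [hll] at h3
          rw [mem_filter, h4.2]
          exact ⟨mem_univ _, (edge_inj h3).1⟩
        · right
          have h6 : run z g u = u := by
            unfold edge at h3
            cases hb : l.2
            · have hb' : l'.2 = true := by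
                cases hc : l'.2
                · exact absurd (hc.trans hb.symm) hs
                · rfl
              rw [if_pos hb', if_neg (by rw [hb]; exact Bool.false_ne_true)] at h3
              simp only [Prod.mk.injEq] at h3
              exact h3.2.1
            · have hb' : l'.2 = false := by
                cases hc : l'.2
                · rfl
                · exact absurd (hc.trans hb.symm) hs
              rw [if_neg (by rw [hb']; exact Bool.false_ne_true), if_pos hb] at h3
              simp only [Prod.mk.injEq] at h3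
              exact h3.2.2
          by_cases hg0 : g = []
          · exfalso
            rw [hw, hg0, List.nil_append] at hred
            have h7 := (List.isChain_cons_cons.1 hred).1 h5.symm
            exact hs h7.symm
          · rw [if_neg hg0, mem_filter, h4.2]
            exact ⟨mem_univ _, h6⟩
  have h1 := (card_le_card hsub).trans (card_union_le _ _)
  rw [card_sdiff_of_subset (TT_image z₀ H l w R), TT_step_card] at h1
  have h2 : (((range w.length).biUnion Sp).card) ≤ w.length * (1 + F0) := by
    refine card_biUnion_le.trans ?_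
    calc ∑ j ∈ range w.length, (Sp j).card ≤ ∑ _j ∈ range w.length, (1 + F0) :=
          sum_le_sum fun j _ => hSpc j
      _ = _ := by rw [sum_const, card_range, smul_eq_mul]
  have h3 : (TT z₀ H (l :: w) R).card ≤ (TT z₀ H w R).card := by
    rw [← TT_step_card z₀ H l w R]
    exact card_le_card (TT_image z₀ H l w R)
  omega

theorem union_pe_of_known {H : Finset (ι × α × α)} {z : ι → Perm α} {l : ι × Bool}
    {w : List (ι × Bool)} {v v' : α} (ha : act z l v = v') (h : edge l v v' ∈ H) :
    H ∪ pe z (l :: w) v = H ∪ pe z w v' := by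
  show H ∪ insert (edge l v (act z l v)) (pe z w (act z l v)) = _
  rw [ha, union_insert, insert_eq_of_mem (mem_union_left _ h)]

theorem union_pe_fresh {H : Finset (ι × α × α)} {z : ι → Perm α} {l : ι × Bool}
    {w : List (ι × Bool)} {v u : α} (ha : act z l v = u) :
    H ∪ pe z (l :: w) v = insert (edge l v u) H ∪ pe z w u := by
  show H ∪ insert (edge l v (act z l v)) (pe z w (act z l v)) = _
  rw [ha, union_insert, insert_union]

open scoped Classical in
theorem land_aux (R : Finset α) (F0 D : ℕ) (G : (ι → Perm α) → ℝ) (hG : ∀ z, 0 ≤ G z)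
    (B : ℝ) (hB : 0 ≤ B) :
    ∀ (w : List (ι × Bool)), FreeGroup.IsReduced w → ∀ (H : Finset (ι × α × α)) (v : α),
      D + H.card + w.length ≤ Fintype.card α →
      (∀ z ∈ ZZ H, ∑ z' ∈ ZZ (H ∪ pe z w v), G z' ≤ B * ((ZZ (H ∪ pe z w v)).card : ℝ)) →
      ∀ z₀ ∈ ZZ H, FIX z₀ w F0 →
      (D : ℝ) * ∑ z ∈ ZZ H, (if ¬ pe z w v ⊆ H ∧ run z w v ∈ R ∧ FIX z w F0 then G z else 0) ≤
        B * ((ZZ H).card : ℝ) * ((R.card : ℝ) - ((TT z₀ H w R).card : ℝ) +
          (w.length : ℝ) ^ 2 * (1 + (F0 : ℝ)))
  | [], _, H, v, _, _, z₀, hz₀, _ => by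
    have h1 : ∀ z ∈ ZZ H, (if ¬ pe z [] v ⊆ H ∧ run z [] v ∈ R ∧ FIX z [] F0 then G z else 0) =
        0 := fun z _ => if_neg fun h => h.1 (empty_subset _)
    rw [sum_congr rfl h1, sum_const_zero, mul_zero]
    have h2 : ((TT z₀ H [] R).card : ℝ) ≤ (R.card : ℝ) := by
      exact_mod_cast TT_card_le z₀ H [] R
    apply mul_nonneg (mul_nonneg hB (Nat.cast_nonneg _))
    have h3 : (0 : ℝ) ≤ ((([] : List (ι × Bool)).length : ℕ) : ℝ) ^ 2 * (1 + (F0 : ℝ)) := by
      positivity
    linarith
  | l :: w, hred, H, v, hcard, hfut, z₀, hz₀, hF₀ => by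
    have hredw : FreeGroup.IsReduced w := (List.isChain_cons.1 hred).2
    have hF₀w : FIX z₀ w F0 := FIX_tail hF₀
    have hT01 : ((TT z₀ H (l :: w) R).card : ℝ) ≤ ((TT z₀ H w R).card : ℝ) := by
      rw [← TT_step_card z₀ H l w R]
      exact_mod_cast card_le_card (TT_image z₀ H l w R)
    have hT1R : ((TT z₀ H w R).card : ℝ) ≤ (R.card : ℝ) := by
      exact_mod_cast TT_card_le z₀ H w R
    obtain ⟨m, hm⟩ : ∃ m : ℝ, m = (w.length : ℝ) := ⟨_, rfl⟩
    have hm0 : 0 ≤ m := by rw [hm]; exact Nat.cast_nonneg _
    have hm1 : (((l :: w).length : ℕ) : ℝ) = m + 1 := by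
      rw [List.length_cons, Nat.cast_add, Nat.cast_one, hm]
    obtain ⟨q, hq⟩ : ∃ q : ℝ, q = 1 + (F0 : ℝ) := ⟨_, rfl⟩
    have hq0 : 0 ≤ q := by rw [hq]; positivity
    rw [hm1, ← hq]
    rw [List.length_cons] at hcard
    obtain ⟨h, hh⟩ : ∃ h : ℝ, h = ((ZZ H).card : ℝ) := ⟨_, rfl⟩
    have hh0 : 0 ≤ h := by rw [hh]; exact Nat.cast_nonneg _
    have hsq : m ^ 2 * q + m * q ≤ (m + 1) ^ 2 * q := by nlinarith [mul_nonneg hm0 hq0]
    by_cases hk : ∃ v', edge l v v' ∈ H
    · -- the first step is known
      obtain ⟨v', hv'⟩ := hk
      have hact : ∀ z ∈ ZZ H, act z l v = v' := fun z hz => act_of_mem hz hv'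
      have hIH := land_aux R F0 D G hG B hB w hredw H v' (by omega) (fun z hz => by
        have h1 := hfut z hz
        rw [union_pe_of_known (hact z hz) hv'] at h1
        exact h1) z₀ hz₀ hF₀w
      rw [← hm, ← hq, ← hh] at hIH
      have hle : ∑ z ∈ ZZ H, (if ¬ pe z (l :: w) v ⊆ H ∧ run z (l :: w) v ∈ R ∧
          FIX z (l :: w) F0 then G z else 0) ≤
          ∑ z ∈ ZZ H, (if ¬ pe z w v' ⊆ H ∧ run z w v' ∈ R ∧ FIX z w F0 then G z else 0) := by
        apply sum_le_sum
        intro z hz
        split_ifs with h1 h2 h2
        · exact le_rfl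
        · exfalso
          apply h2
          refine ⟨fun h3 => h1.1 ?_, ?_, FIX_tail h1.2.2⟩
          · show insert (edge l v (act z l v)) (pe z w (act z l v)) ⊆ H
            rw [hact z hz]
            exact insert_subset hv' h3
          · have h4 : run z w (act z l v) ∈ R := h1.2.1
            rw [hact z hz] at h4
            exact h4
        · exact hG z
        · exact le_rfl
      have h1 := mul_le_mul_of_nonneg_left hle (Nat.cast_nonneg (α := ℝ) D)
      rw [← hh]
      refine h1.trans (hIH.trans ?_)
      apply mul_le_mul_of_nonneg_left _ (mul_nonneg hB hh0)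
      have h2 := mul_nonneg hm0 hq0
      linarith
    · -- a fresh step
      push Not at hk
      obtain ⟨S, hS⟩ : ∃ S : Finset α, ∀ u, u ∈ S ↔ ∃ z ∈ ZZ (insert (edge l v u) H),
          pe z w u ⊆ insert (edge l v u) H ∧ run z w u ∈ R := by
        classical
        exact ⟨univ.filter fun u => ∃ z ∈ ZZ (insert (edge l v u) H),
          pe z w u ⊆ insert (edge l v u) H ∧ run z w u ∈ R, fun u => by simp⟩
      have hSc := card_good z₀ H hz₀ l w hred R F0 hF₀w v hk S fun u hu => (hS u).1 hu
      have hSc' : (S.card : ℝ) + ((TT z₀ H (l :: w) R).card : ℝ) ≤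
          ((TT z₀ H w R).card : ℝ) + m * q := by
        rw [hm, hq]
        exact_mod_cast hSc
      have hcardu : ∀ u, (insert (edge l v u) H).card = H.card + 1 := fun u =>
        card_insert_of_notMem (hk u)
      have hD' : ∀ u, (D : ℝ) * ((ZZ (insert (edge l v u) H)).card : ℝ) ≤ h := by
        intro u
        have h1 := card_ZZ_insert_le H l v u hk
        have h2 : D * (ZZ (insert (edge l v u) H)).card ≤ (ZZ H).card := by
          refine le_trans ?_ h1
          rw [mul_comm]
          exact Nat.mul_le_mul_left _ (by omega)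
        rw [hh]
        exact_mod_cast h2
      obtain ⟨W, hW⟩ : ∃ W : ℝ, W = (R.card : ℝ) - ((TT z₀ H w R).card : ℝ) + m ^ 2 * q :=
        ⟨_, rfl⟩
      have hW0 : 0 ≤ W := by
        rw [hW]
        have := mul_nonneg (sq_nonneg m) hq0
        linarith
      have hu : ∀ u, (D : ℝ) * ∑ z ∈ ZZ (insert (edge l v u) H),
          (if ¬ pe z (l :: w) v ⊆ H ∧ run z (l :: w) v ∈ R ∧ FIX z (l :: w) F0 then G z else 0) ≤
          B * ((ZZ (insert (edge l v u) H)).card : ℝ) * W +
            (if u ∈ S then B * h else 0) := by
        intro u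
        have hrest : 0 ≤ (if u ∈ S then B * h else 0) := by
          split_ifs
          · exact mul_nonneg hB hh0
          · exact le_rfl
        have hmain : 0 ≤ B * ((ZZ (insert (edge l v u) H)).card : ℝ) * W :=
          mul_nonneg (mul_nonneg hB (Nat.cast_nonneg _)) hW0
        have hact : ∀ z ∈ ZZ (insert (edge l v u) H), act z l v = u := fun z hz =>
          ((mem_ZZ_insert H l v u z).1 hz).2
        have hfut' : ∀ z ∈ ZZ (insert (edge l v u) H),
            ∑ z' ∈ ZZ (insert (edge l v u) H ∪ pe z w u), G z' ≤
              B * ((ZZ (insert (edge l v u) H ∪ pe z w u)).card : ℝ) := by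
          intro z hz
          have h1 := hfut z ((mem_ZZ_insert H l v u z).1 hz).1
          rw [union_pe_fresh (hact z hz)] at h1
          exact h1
        by_cases hex : ∃ z ∈ ZZ (insert (edge l v u) H), pe z w u ⊆ insert (edge l v u) H
        · -- everything is known
          obtain ⟨z₁, hz₁, hk₁⟩ := hex
          by_cases huS : u ∈ S
          · have h1 : ∑ z ∈ ZZ (insert (edge l v u) H), (if ¬ pe z (l :: w) v ⊆ H ∧
                run z (l :: w) v ∈ R ∧ FIX z (l :: w) F0 then G z else 0) ≤
                B * ((ZZ (insert (edge l v u) H)).card : ℝ) := by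
              have h2 := hfut' z₁ hz₁
              rw [union_eq_left.2 hk₁] at h2
              refine le_trans (sum_le_sum fun z _ => ?_) h2
              split_ifs
              · exact le_rfl
              · exact hG z
            rw [if_pos huS]
            have h3 := mul_le_mul_of_nonneg_left h1 (Nat.cast_nonneg (α := ℝ) D)
            have h4 := mul_le_mul_of_nonneg_left (hD' u) hB
            nlinarith
          · have h1 : ∑ z ∈ ZZ (insert (edge l v u) H), (if ¬ pe z (l :: w) v ⊆ H ∧
                run z (l :: w) v ∈ R ∧ FIX z (l :: w) F0 then G z else 0) = 0 := by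
              apply sum_eq_zero
              intro z hz
              rw [if_neg]
              intro h2
              apply huS
              rw [hS]
              have h3 := known_congr hz w u hk₁
              refine ⟨z, hz, by rw [h3.1]; exact hk₁, ?_⟩
              have h4 : run z w (act z l v) ∈ R := h2.2.1
              rw [hact z hz] at h4
              exact h4
            rw [h1, mul_zero]
            linarith
        · push Not at hex
          by_cases hfx : ∃ z₁ ∈ ZZ (insert (edge l v u) H), FIX z₁ w F0
          · obtain ⟨z₁, hz₁, hF₁⟩ := hfx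
            have hIH := land_aux R F0 D G hG B hB w hredw (insert (edge l v u) H) u
              (by rw [hcardu]; omega) hfut' z₁ hz₁ hF₁
            rw [← hm, ← hq] at hIH
            have hTT : ((TT z₀ H w R).card : ℝ) ≤
                ((TT z₁ (insert (edge l v u) H) w R).card : ℝ) := by
              have h1 : TT z₀ H w R ⊆ TT z₁ (insert (edge l v u) H) w R := by
                intro x hx
                rw [mem_TT] at hx ⊢
                have h2 := known_congr (ZZ_anti (subset_insert _ _) hz₁) w x hx.1
                rw [h2.1, h2.2]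
                exact ⟨hx.1.trans (subset_insert _ _), hx.2⟩
              exact_mod_cast card_le_card h1
            have hle : ∑ z ∈ ZZ (insert (edge l v u) H), (if ¬ pe z (l :: w) v ⊆ H ∧
                run z (l :: w) v ∈ R ∧ FIX z (l :: w) F0 then G z else 0) ≤
                ∑ z ∈ ZZ (insert (edge l v u) H), (if ¬ pe z w u ⊆ insert (edge l v u) H ∧
                  run z w u ∈ R ∧ FIX z w F0 then G z else 0) := by
              apply sum_le_sum
              intro z hz
              split_ifs with h1 h2 h2
              · exact le_rfl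
              · exfalso
                apply h2
                refine ⟨hex z hz, ?_, FIX_tail h1.2.2⟩
                have h4 : run z w (act z l v) ∈ R := h1.2.1
                rw [hact z hz] at h4
                exact h4
              · exact hG z
              · exact le_rfl
            have h1 := mul_le_mul_of_nonneg_left hle (Nat.cast_nonneg (α := ℝ) D)
            have h2 : B * ((ZZ (insert (edge l v u) H)).card : ℝ) *
                ((R.card : ℝ) - ((TT z₁ (insert (edge l v u) H) w R).card : ℝ) + m ^ 2 * q) ≤
                B * ((ZZ (insert (edge l v u) H)).card : ℝ) * W := by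
              apply mul_le_mul_of_nonneg_left _ (mul_nonneg hB (Nat.cast_nonneg _))
              rw [hW]
              linarith
            linarith
          · push Not at hfx
            have h1 : ∑ z ∈ ZZ (insert (edge l v u) H), (if ¬ pe z (l :: w) v ⊆ H ∧
                run z (l :: w) v ∈ R ∧ FIX z (l :: w) F0 then G z else 0) = 0 := by
              apply sum_eq_zero
              intro z hz
              rw [if_neg]
              intro h2
              exact hfx z hz (FIX_tail h2.2.2)
            rw [h1, mul_zero]
            linarith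
      -- summation
      have hsplit : ∑ u, ((ZZ (insert (edge l v u) H)).card : ℝ) = h := by
        have h1 := sum_ZZ_split H l v fun _ => 1
        simp only [sum_const, nsmul_eq_mul, mul_one] at h1
        rw [hh, h1]
      rw [sum_ZZ_split H l v, mul_sum, ← hh]
      refine (sum_le_sum fun u _ => hu u).trans ?_
      rw [sum_add_distrib, sum_ite_mem, univ_inter, sum_const, nsmul_eq_mul, ← sum_mul, ← mul_sum,
        hsplit]
      have h1 : B * h * W + (S.card : ℝ) * (B * h) = B * h * (W + (S.card : ℝ)) := by ring
      rw [h1]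
      apply mul_le_mul_of_nonneg_left _ (mul_nonneg hB hh0)
      rw [hW]
      linarith

open scoped Classical in
/-- **The landing lemma.** -/
theorem land (R : Finset α) (F0 D : ℕ) (G : (ι → Perm α) → ℝ) (hG : ∀ z, 0 ≤ G z)
    (B : ℝ) (hB : 0 ≤ B)
    (w : List (ι × Bool)) (hred : FreeGroup.IsReduced w) (H : Finset (ι × α × α)) (v : α)
    (hD : D + H.card + w.length ≤ Fintype.card α)
    (hfut : ∀ z ∈ ZZ H, ∑ z' ∈ ZZ (H ∪ pe z w v), G z' ≤ B * ((ZZ (H ∪ pe z w v)).card : ℝ)) :
    (D : ℝ) * ∑ z ∈ ZZ H, (if ¬ pe z w v ⊆ H ∧ run z w v ∈ R ∧ FIX z w F0 then G z else 0) ≤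
      B * ((ZZ H).card : ℝ) * ((R.card : ℝ) + (w.length : ℝ) ^ 2 * (1 + (F0 : ℝ))) := by
  by_cases hfx : ∃ z₁ ∈ ZZ H, FIX z₁ w F0
  · obtain ⟨z₁, hz₁, hF₁⟩ := hfx
    refine (land_aux R F0 D G hG B hB w hred H v hD hfut z₁ hz₁ hF₁).trans ?_
    apply mul_le_mul_of_nonneg_left _ (mul_nonneg hB (Nat.cast_nonneg _))
    have : (0 : ℝ) ≤ ((TT z₁ H w R).card : ℝ) := Nat.cast_nonneg _
    linarith
  · push Not at hfx
    have h1 : ∑ z ∈ ZZ H, (if ¬ pe z w v ⊆ H ∧ run z w v ∈ R ∧ FIX z w F0 then G z else 0) =
        0 := by
      apply sum_eq_zero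
      intro z hz
      rw [if_neg]
      intro h2
      exact hfx z hz h2.2.2
    rw [h1, mul_zero]
    positivity

end Pool.Agent.Helper60.FS
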