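import Pool.Agent.Helper60.FS.Slc

/-!
# The sampler lemma (MP_75608d_al)
-/

set_option autoImplicit false
set_option linter.unusedSectionVars false

namespace Pool.Agent.Helper60.FS

open Finset Equiv

variable {ι α : Type} [Fintype ι] [DecidableEq ι] [Fintype α] [DecidableEq α]

/-- the vertices of the path -/
def vs (z : ι → Perm α) : List (ι × Bool) → α → Finset α
  | [], v => {v}
  | l :: w, v => insert v (vs z w (act z l v))

/-- the end points of the edges -/
def verts (H : Finset (ι × α × α)) : Finset α := H.biUnion fun e => {e.2.1, e.2.2}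

/-- every path leaves `V` and the other paths -/
def Exits (z : ι → Perm α) (w : List (ι × Bool)) (P V : Finset α) : Prop :=
  w ≠ [] ∧ ∀ p ∈ P, ∃ u ∈ vs z w p, u ∉ V ∧ ∀ p2 ∈ P, p2 ≠ p → u ∉ vs z w p2

theorem card_verts_le (H : Finset (ι × α × α)) : (verts H).card ≤ 2 * H.card := by
  unfold verts
  refine card_biUnion_le.trans ?_
  calc ∑ e ∈ H, ({e.2.1, e.2.2} : Finset α).card ≤ ∑ _e ∈ H, 2 :=
        sum_le_sum fun e _ => card_le_two
    _ = _ := by rw [sum_const, smul_eq_mul, mul_comm]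

theorem mem_verts_edge (l : ι × Bool) (v u : α) {H : Finset (ι × α × α)}
    (h : edge l v u ∈ H) : v ∈ verts H ∧ u ∈ verts H := by
  unfold verts
  rw [mem_biUnion, mem_biUnion]
  refine ⟨⟨_, h, ?_⟩, ⟨_, h, ?_⟩⟩
  · unfold edge
    split_ifs <;> simp
  · unfold edge
    split_ifs <;> simp

theorem verts_mono {H H' : Finset (ι × α × α)} (h : H ⊆ H') : verts H ⊆ verts H' :=
  biUnion_subset_biUnion_of_subset_left _ h

theorem vs_subset_verts (z : ι → Perm α) : ∀ (w : List (ι × Bool)) (v : α), w ≠ [] →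
    vs z w v ⊆ verts (pe z w v)
  | [], _, h => absurd rfl h
  | l :: w, v, _ => by
    have h1 : edge l v (act z l v) ∈ pe z (l :: w) v := mem_insert_self _ _
    have h2 := mem_verts_edge l v (act z l v) h1
    apply insert_subset h2.1
    by_cases hw : w = []
    · rw [hw]
      show ({act z l v} : Finset α) ⊆ _
      rw [singleton_subset_iff, ← hw]
      exact h2.2
    · exact (vs_subset_verts z w _ hw).trans (verts_mono (subset_insert _ _))

theorem start_mem_vs (z : ι → Perm α) : ∀ (w : List (ι × Bool)) (v : α), v ∈ vs z w v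
  | [], _ => mem_singleton_self _
  | _ :: _, _ => mem_insert_self _ _

theorem verts_subset_vs (z : ι → Perm α) : ∀ (w : List (ι × Bool)) (v : α),
    verts (pe z w v) ⊆ vs z w v
  | [], _ => by
    intro u hu
    unfold verts at hu
    rw [mem_biUnion] at hu
    obtain ⟨e, he, -⟩ := hu
    exact absurd he (notMem_empty _)
  | l :: w, v => by
    intro u hu
    unfold verts at hu
    rw [mem_biUnion] at hu
    obtain ⟨e, he, hue⟩ := hu
    rcases mem_insert.1 he with rfl | he
    · have h1 : u = v ∨ u = act z l v := by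
        unfold edge at hue
        split_ifs at hue
        · simpa using hue
        · have h2 : u = act z l v ∨ u = v := by simpa using hue
          exact h2.symm
      rcases h1 with rfl | rfl
      · exact mem_insert_self _ _
      · exact mem_insert_of_mem (start_mem_vs z w _)
    · apply mem_insert_of_mem
      apply verts_subset_vs z w
      unfold verts
      exact mem_biUnion.2 ⟨e, he, hue⟩

theorem exit_of (z : ι → Perm α) (w : List (ι × Bool)) (P : Finset α) (H : Finset (ι × α × α))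
    (h : Exits z w P (verts H)) :
    ∀ p ∈ P, ¬ pe z w p ⊆ H ∪ (P.erase p).biUnion (pe z w) := by
  intro p hp hsub
  obtain ⟨u, hu, huV, hup⟩ := h.2 p hp
  have h1 := vs_subset_verts z w p h.1 hu
  have h2 := verts_mono hsub h1
  unfold verts at h2
  rw [mem_biUnion] at h2
  obtain ⟨e, he, hue⟩ := h2
  rcases mem_union.1 he with he | he
  · apply huV
    unfold verts
    exact mem_biUnion.2 ⟨e, he, hue⟩
  · rw [mem_biUnion] at he
    obtain ⟨p2, hp2, he⟩ := he
    rw [mem_erase] at hp2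
    apply hup p2 hp2.2 hp2.1
    apply verts_subset_vs z w p2
    unfold verts
    exact mem_biUnion.2 ⟨e, he, hue⟩

/-! ### Product weights -/

variable {Ω : Type} [Fintype Ω]

theorem sum_fin_succ {m : ℕ} (f : (Fin (m + 1) → Ω) → ℝ) :
    ∑ b, f b = ∑ w, ∑ b' : Fin m → Ω, f (Fin.cons w b') := by
  rw [← (Fin.consEquiv (fun _ : Fin (m + 1) => Ω)).sum_comp, Fintype.sum_prod_type]
  rfl

theorem prod_sum_one {p : Ω → ℝ} (hp : ∑ w, p w = 1) (m : ℕ) :
    ∑ b : Fin m → Ω, ∏ i, p (b i) = 1 := by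
  rw [← Fintype.sum_pow, hp, one_pow]

open scoped Classical in
/-- the probability that a point is covered by `m` independent random sets -/
theorem cover_prob {p : Ω → ℝ} (hp1 : ∑ w, p w = 1) (S : Ω → Finset α) (m : ℕ) (q : α) :
    ∑ a : Fin m → Ω, (∏ i, p (a i)) * (if q ∈ univ.biUnion fun i => S (a i) then (1 : ℝ) else 0) =
      1 - (1 - ∑ w, p w * (if q ∈ S w then (1 : ℝ) else 0)) ^ m := by
  have h1 : ∀ a : Fin m → Ω, (∏ i, p (a i)) *
      (if q ∈ univ.biUnion fun i => S (a i) then (1 : ℝ) else 0) =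
      (∏ i, p (a i)) - ∏ i, (p (a i) * (if q ∈ S (a i) then (0 : ℝ) else 1)) := by
    intro a
    rw [prod_mul_distrib]
    by_cases h : q ∈ univ.biUnion fun i => S (a i)
    · rw [if_pos h]
      rw [mem_biUnion] at h
      obtain ⟨i, -, hi⟩ := h
      have h2 : ∏ j, (if q ∈ S (a j) then (0 : ℝ) else 1) = 0 :=
        prod_eq_zero (mem_univ i) (if_pos hi)
      rw [h2]
      ring
    · rw [if_neg h]
      have h2 : ∏ i, (if q ∈ S (a i) then (0 : ℝ) else 1) = 1 := by
        apply prod_eq_one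
        intro i _
        rw [if_neg]
        intro h3
        exact h (mem_biUnion.2 ⟨i, mem_univ i, h3⟩)
      rw [h2]
      ring
  rw [sum_congr rfl fun a _ => h1 a, sum_sub_distrib, prod_sum_one hp1,
    ← Fintype.sum_pow (fun w => p w * (if q ∈ S w then (0 : ℝ) else 1))]
  congr 2
  have h2 : ∀ w, p w * (if q ∈ S w then (0 : ℝ) else 1) =
      p w - p w * (if q ∈ S w then (1 : ℝ) else 0) := by
    intro w
    split_ifs <;> ring
  rw [sum_congr rfl fun w _ => h2 w, sum_sub_distrib, hp1]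

theorem one_sub_pow_le {r : ℝ} (h0 : 0 ≤ r) (h1 : r ≤ 1) (m : ℕ) :
    m * r / (1 + m * r) ≤ 1 - (1 - r) ^ m := by
  have hb : 1 + (m : ℝ) * r ≤ (1 + r) ^ m := one_add_mul_le_pow (by linarith) m
  have hpos : 0 < 1 + (m : ℝ) * r := by positivity
  rw [div_le_iff₀ hpos]
  have h2 : (1 - r) ^ m * (1 + r) ^ m ≤ 1 := by
    rw [← mul_pow]
    apply pow_le_one₀
    · nlinarith
    · nlinarith
  have h3 : 0 ≤ (1 - r) ^ m := pow_nonneg (by linarith) m
  have h4 : (1 - r) ^ m * (1 + (m : ℝ) * r) ≤ 1 := (mul_le_mul_of_nonneg_left hb h3).trans h2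
  linarith

/-- the convexity step -/
theorem conv_step (R : Finset α) (r : α → ℝ) (hr0 : ∀ q, 0 ≤ r q) (m : ℕ) (A s : ℝ)
    (hA : (R.card : ℝ) ≤ A) (hs : 0 ≤ s) (hsr : s ≤ ∑ q ∈ R, r q) (hpos : 0 < A + m * s) :
    m * s ^ 2 / (A + m * s) ≤ ∑ q ∈ R, r q * (m * r q / (1 + m * r q)) := by
  have hp : ∀ q ∈ R, 0 < 1 + (m : ℝ) * r q := fun q _ => by
    have := hr0 q
    positivity
  have h1 := sq_sum_div_le_sum_sq_div R r hp
  have h2 : ∑ q ∈ R, r q * (m * r q / (1 + m * r q)) =
      m * ∑ q ∈ R, r q ^ 2 / (1 + (m : ℝ) * r q) := by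
    rw [mul_sum]
    apply sum_congr rfl
    intro q _
    ring
  have h3 : ∑ q ∈ R, (1 + (m : ℝ) * r q) = (R.card : ℝ) + m * ∑ q ∈ R, r q := by
    rw [sum_add_distrib, ← mul_sum, sum_const, nsmul_eq_mul, mul_one]
  rw [h3] at h1
  rw [h2]
  obtain ⟨S, hS⟩ : ∃ S, S = ∑ q ∈ R, r q := ⟨_, rfl⟩
  rw [← hS] at h1 hsr
  have hS0 : 0 ≤ S := hs.trans hsr
  have hm0 : (0 : ℝ) ≤ (m : ℝ) := Nat.cast_nonneg _
  have hpos2 : 0 < A + m * S := by
    have := mul_le_mul_of_nonneg_left hsr hm0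
    linarith
  have hA0 : 0 ≤ A := le_trans (Nat.cast_nonneg _) hA
  have h4 : s ^ 2 / (A + m * s) ≤ S ^ 2 / (A + m * S) := by
    rw [div_le_div_iff₀ hpos hpos2]
    have h5 : 0 ≤ S - s := by linarith
    have h6 : 0 ≤ (m : ℝ) * (s * (S * (S - s))) := by positivity
    have h7 : 0 ≤ A * ((S - s) * (S + s)) := by positivity
    nlinarith
  have h8 : S ^ 2 / (A + m * S) ≤ ∑ q ∈ R, r q ^ 2 / (1 + (m : ℝ) * r q) := by
    by_cases hz : (R.card : ℝ) + m * S = 0
    · have hc : (R.card : ℝ) = 0 := by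
        have h9 : (0 : ℝ) ≤ (R.card : ℝ) := Nat.cast_nonneg _
        have h10 := mul_nonneg hm0 hS0
        linarith
      have hR : R = ∅ := by
        rw [← card_eq_zero]
        exact_mod_cast hc
      rw [hS, hR]
      simp
    · refine le_trans ?_ h1
      have h9 : 0 < (R.card : ℝ) + m * S := lt_of_le_of_ne
        (add_nonneg (Nat.cast_nonneg _) (mul_nonneg hm0 hS0)) (Ne.symm hz)
      apply div_le_div_of_nonneg_left (sq_nonneg _) h9
      linarith
  calc (m : ℝ) * s ^ 2 / (A + m * s) = (m : ℝ) * (s ^ 2 / (A + m * s)) := by ring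
    _ ≤ (m : ℝ) * ∑ q ∈ R, r q ^ 2 / (1 + (m : ℝ) * r q) :=
        mul_le_mul_of_nonneg_left (h4.trans h8) hm0

/-! ### Lower bound for the probability of the event -/

variable (P : Finset α) (F0 h J v0 : ℕ) (p : Ω → ℝ) (ρ : Ω → List (ι × Bool)) (e : ℝ)

open scoped Classical in
/-- the exit property of `z` -/
def EXIT (z : ι → Perm α) : Prop :=
  ∀ V : Finset α, V.card ≤ v0 → ∑ w, p w * (if Exits z (ρ w) P V then (0 : ℝ) else 1) ≤ e

open scoped Classical in
/-- the exit property of `z` together with few fixed points -/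
def EXITF (z : ι → Perm α) : Prop :=
  ∀ V : Finset α, V.card ≤ v0 →
    ∑ w, p w * (if Exits z (ρ w) P V ∧ FIX z (ρ w) F0 then (0 : ℝ) else 1) ≤ e

theorem EXITF_of {z : ι → Perm α} (hF : ∀ w, FIX z (ρ w) F0) (hE : EXIT P v0 p ρ e z) :
    EXITF P F0 v0 p ρ e z := by
  intro V hV
  refine le_trans (le_of_eq ?_) (hE V hV)
  apply sum_congr rfl
  intro w _
  congr 1
  by_cases h1 : Exits z (ρ w) P V
  · rw [if_pos h1, if_pos ⟨h1, hF w⟩]
  · rw [if_neg h1, if_neg fun h2 => h1 h2.1]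

open scoped Classical in
/-- the probability that at least `h` points of `P` are moved into `R` -/
noncomputable def hit (z : ι → Perm α) (R : Finset α) : ℝ :=
  ∑ w, p w * (if h ≤ (P.filter fun q => run z (ρ w) q ∈ R).card then (1 : ℝ) else 0)

open scoped Classical in
theorem okl_lower (hp0 : ∀ w, 0 ≤ p w) (z : ι → Perm α)
    (hE : EXITF P F0 v0 p ρ e z) (hJ : ∀ w, (ρ w).length ≤ J) (R : Finset α) :
    ∀ (m : ℕ) (H : Finset (ι × α × α)), 2 * (H.card + m * (P.card * J)) ≤ v0 →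
      max (hit P h p ρ z R - e) 0 ^ m ≤ ∑ b : Fin m → Ω, (∏ i, p (b i)) *
        (if okl P F0 h z R H m (fun i => ρ (b i)) then (1 : ℝ) else 0)
  | 0, H, _ => by
    rw [pow_zero]
    rw [Fintype.sum_eq_single (fun k => k.elim0)]
    · simp [okl]
    · intro b hb
      exact absurd (Subsingleton.elim _ _) hb
  | m + 1, H, hcard => by
    rw [sum_fin_succ]
    obtain ⟨t, ht⟩ : ∃ t, t = max (hit P h p ρ z R - e) 0 := ⟨_, rfl⟩
    rw [← ht]
    have ht0 : 0 ≤ t := by rw [ht]; exact le_max_right _ _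
    have hfac : ∀ w : Ω, ∑ b' : Fin m → Ω, (∏ i, p ((Fin.cons w b' : Fin (m + 1) → Ω) i)) *
        (if okl P F0 h z R H (m + 1) (fun i => ρ ((Fin.cons w b' : Fin (m + 1) → Ω) i))
          then (1 : ℝ) else 0) =
        p w * (if Ok P F0 h z R H (ρ w) then (1 : ℝ) else 0) *
          ∑ b' : Fin m → Ω, (∏ i, p (b' i)) *
            (if okl P F0 h z R (H ∪ allpe z (ρ w) P) m (fun i => ρ (b' i)) then (1 : ℝ)
              else 0) := by
      intro w
      rw [mul_sum]
      apply sum_congr rfl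
      intro b' _
      rw [Fin.prod_univ_succ]
      simp only [Fin.cons_zero, Fin.cons_succ, okl]
      by_cases h1 : Ok P F0 h z R H (ρ w)
      · by_cases h2 : okl P F0 h z R (H ∪ allpe z (ρ w) P) m fun i => ρ (b' i)
        · rw [if_pos ⟨h1, h2⟩, if_pos h1, if_pos h2]
          ring
        · rw [if_neg fun h3 => h2 h3.2, if_neg h2]
          ring
      · rw [if_neg fun h3 => h1 h3.1, if_neg h1]
        ring
    rw [sum_congr rfl fun w _ => hfac w]
    have hIH : ∀ w : Ω, t ^ m ≤ ∑ b' : Fin m → Ω, (∏ i, p (b' i)) *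
        (if okl P F0 h z R (H ∪ allpe z (ρ w) P) m (fun i => ρ (b' i)) then (1 : ℝ)
          else 0) := by
      intro w
      rw [ht]
      apply okl_lower hp0 z hE hJ R m
      have h1 : (H ∪ allpe z (ρ w) P).card ≤ H.card + P.card * J :=
        (card_union_le _ _).trans (Nat.add_le_add_left
          ((card_allpe_le z (ρ w) P).trans (Nat.mul_le_mul_left _ (hJ w))) _)
      have h2 : (m + 1) * (P.card * J) = m * (P.card * J) + P.card * J := by ring
      rw [h2] at hcard
      omega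
    have hOk : t ≤ ∑ w, p w * (if Ok P F0 h z R H (ρ w) then (1 : ℝ) else 0) := by
      rw [ht]
      apply max_le
      · have h1 := hE (verts H) (by
          refine (card_verts_le H).trans ?_
          refine le_trans ?_ hcard
          exact Nat.mul_le_mul_left 2 (Nat.le_add_right _ _))
        have h2 : hit P h p ρ z R ≤ ∑ w, p w * (if Ok P F0 h z R H (ρ w) then (1 : ℝ) else 0) +
            ∑ w, p w * (if Exits z (ρ w) P (verts H) ∧ FIX z (ρ w) F0 then (0 : ℝ)
              else 1) := by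
          unfold hit
          rw [← sum_add_distrib]
          apply sum_le_sum
          intro w _
          rw [← mul_add]
          apply mul_le_mul_of_nonneg_left _ (hp0 w)
          by_cases h3 : h ≤ (P.filter fun q => run z (ρ w) q ∈ R).card
          · rw [if_pos h3]
            by_cases h4 : Exits z (ρ w) P (verts H) ∧ FIX z (ρ w) F0
            · rw [if_pos h4, if_pos ⟨exit_of z (ρ w) P H h4.1, h3, h4.2⟩]
              norm_num
            · rw [if_neg h4]
              split_ifs <;> norm_num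
          · rw [if_neg h3]
            split_ifs <;> norm_num
        linarith
      · apply sum_nonneg
        intro w _
        apply mul_nonneg (hp0 w)
        split_ifs <;> norm_num
    rw [pow_succ']
    calc t * t ^ m ≤ (∑ w, p w * (if Ok P F0 h z R H (ρ w) then (1 : ℝ) else 0)) * t ^ m :=
          mul_le_mul_of_nonneg_right hOk (pow_nonneg ht0 m)
      _ = ∑ w, p w * (if Ok P F0 h z R H (ρ w) then (1 : ℝ) else 0) * t ^ m := sum_mul _ _ _
      _ ≤ _ := by
        apply sum_le_sum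
        intro w _
        apply mul_le_mul_of_nonneg_left (hIH w)
        apply mul_nonneg (hp0 w)
        split_ifs <;> norm_num

/-- the union of the images of `P` -/
def img (z : ι → Perm α) (w : List (ι × Bool)) : Finset α := P.image (run z w)

open scoped Classical in
/-- the number of points landing in a set, as a sum over the points of the set -/
theorem count_eq (z : ι → Perm α) (w : List (ι × Bool)) (R : Finset α) :
    ((P.filter fun q => run z w q ∈ R).card : ℝ) =
      ∑ q ∈ R, (if q ∈ img P z w then (1 : ℝ) else 0) := by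
  rw [sum_boole]
  congr 1
  have h1 : (P.filter fun q => run z w q ∈ R).image (run z w) =
      R.filter fun q => q ∈ img P z w := by
    ext q
    unfold img
    simp only [mem_image, mem_filter]
    constructor
    · rintro ⟨x, ⟨hx, hR⟩, rfl⟩
      exact ⟨hR, x, hx, rfl⟩
    · rintro ⟨hq, x, hx, rfl⟩
      exact ⟨x, ⟨hx, hq⟩, rfl⟩
  rw [← h1, card_image_of_injOn fun _ _ _ _ h => run_inj z w h]

open scoped Classical in
/-- reverse Markov inequality -/
theorem hit_ge (ν : Ω → ℝ) (hν0 : ∀ w, 0 ≤ ν w) (hν1 : ∑ w, ν w = 1) (hM : 0 < P.card)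
    (z : ι → Perm α) (R : Finset α) :
    (∑ w, ν w * ((P.filter fun q => run z (ρ w) q ∈ R).card : ℝ) - h) / P.card ≤
      hit P h ν ρ z R := by
  have hMr : (0 : ℝ) < (P.card : ℝ) := by exact_mod_cast hM
  rw [div_le_iff₀ hMr]
  unfold hit
  rw [sum_mul]
  have h1 : (h : ℝ) = ∑ w, ν w * (h : ℝ) := by rw [← sum_mul, hν1, one_mul]
  rw [h1, ← sum_sub_distrib]
  apply sum_le_sum
  intro w _
  rw [← mul_sub, mul_assoc]
  apply mul_le_mul_of_nonneg_left _ (hν0 w)
  by_cases h2 : h ≤ (P.filter fun q => run z (ρ w) q ∈ R).card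
  · rw [if_pos h2, one_mul]
    have h3 : ((P.filter fun q => run z (ρ w) q ∈ R).card : ℝ) ≤ (P.card : ℝ) := by
      exact_mod_cast card_filter_le _ _
    have h4 : (0 : ℝ) ≤ (h : ℝ) := Nat.cast_nonneg _
    linarith
  · rw [if_neg h2, zero_mul]
    push Not at h2
    have h3 : ((P.filter fun q => run z (ρ w) q ∈ R).card : ℝ) ≤ (h : ℝ) := by
      exact_mod_cast h2.le
    linarith

open scoped Classical in
/-- the average number of points in the union of the images of the first `m` words -/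
theorem mean_ge (ν : Ω → ℝ) (hν0 : ∀ w, 0 ≤ ν w) (hν1 : ∑ w, ν w = 1) (z : ι → Perm α)
    (R : Finset α) (m : ℕ) (A s : ℝ) (hA : (R.card : ℝ) ≤ A) (hs : 0 ≤ s)
    (hpos : 0 < A + m * s)
    (hsr : s ≤ ∑ w, ν w * ((P.filter fun q => run z (ρ w) q ∈ R).card : ℝ)) :
    m * s ^ 2 / (A + m * s) ≤ ∑ a : Fin m → Ω, (∏ i, ν (a i)) *
      ∑ w, ν w * ((P.filter fun q => run z (ρ w) q ∈
        univ.biUnion fun i => img P z (ρ (a i))).card : ℝ) := by
  obtain ⟨r, hr⟩ : ∃ r : α → ℝ, r = fun q => ∑ w, ν w *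
    (if q ∈ img P z (ρ w) then (1 : ℝ) else 0) := ⟨_, rfl⟩
  have hr0 : ∀ q, 0 ≤ r q := fun q => by
    rw [hr]
    apply sum_nonneg
    intro w _
    apply mul_nonneg (hν0 w)
    split_ifs <;> norm_num
  have hr1 : ∀ q, r q ≤ 1 := fun q => by
    rw [hr]
    refine le_trans ?_ hν1.le
    apply sum_le_sum
    intro w _
    have := hν0 w
    split_ifs
    · linarith
    · linarith
  have hsr' : s ≤ ∑ q ∈ R, r q := by
    refine hsr.trans (le_of_eq ?_)
    rw [hr]
    rw [sum_comm]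
    apply sum_congr rfl
    intro w _
    rw [count_eq, mul_sum]
  refine (conv_step R r hr0 m A s hA hs hsr' hpos).trans ?_
  -- the right-hand side
  have h1 : ∑ a : Fin m → Ω, (∏ i, ν (a i)) *
      ∑ w, ν w * ((P.filter fun q => run z (ρ w) q ∈
        univ.biUnion fun i => img P z (ρ (a i))).card : ℝ) =
      ∑ q, r q * (1 - (1 - r q) ^ m) := by
    have h2 : ∀ q, r q * (1 - (1 - r q) ^ m) = ∑ a : Fin m → Ω, (∏ i, ν (a i)) *
        ((if q ∈ univ.biUnion fun i => img P z (ρ (a i)) then (1 : ℝ) else 0) * r q) := by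
      intro q
      have h3 := cover_prob hν1 (fun w => img P z (ρ w)) m q
      rw [hr]
      beta_reduce
      rw [← h3, mul_sum]
      apply sum_congr rfl
      intro a _
      ring
    rw [sum_congr rfl fun q _ => h2 q, sum_comm]
    apply sum_congr rfl
    intro a _
    rw [← mul_sum]
    congr 1
    rw [hr]
    simp only [mul_sum]
    rw [sum_comm]
    apply sum_congr rfl
    intro w _
    rw [count_eq, mul_sum]
    rw [← sum_filter_add_sum_filter_not univ
      (fun q => q ∈ univ.biUnion fun i => img P z (ρ (a i)))]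
    have h4 : ∑ q with ¬ q ∈ univ.biUnion fun i => img P z (ρ (a i)),
        (if q ∈ univ.biUnion fun i => img P z (ρ (a i)) then (1 : ℝ) else 0) *
          (ν w * (if q ∈ img P z (ρ w) then (1 : ℝ) else 0)) = 0 := by
      apply sum_eq_zero
      intro q hq
      rw [mem_filter] at hq
      rw [if_neg hq.2, zero_mul]
    rw [h4, add_zero]
    rw [filter_univ_mem]
    apply sum_congr rfl
    intro q hq
    rw [if_pos hq, one_mul]
  rw [h1]
  have h5 : ∑ q ∈ R, r q * (m * r q / (1 + m * r q)) ≤ ∑ q ∈ R, r q * (1 - (1 - r q) ^ m) :=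
    sum_le_sum fun q _ => mul_le_mul_of_nonneg_left (one_sub_pow_le (hr0 q) (hr1 q) m) (hr0 q)
  refine h5.trans (sum_le_univ_sum_of_nonneg fun q => ?_)
  apply mul_nonneg (hr0 q)
  have h6 : (1 - r q) ^ m ≤ 1 := pow_le_one₀ (by linarith [hr1 q]) (by linarith [hr0 q])
  linarith

open scoped Classical in
/-- the probability of the event for a bad family `z` -/
theorem bad_lower (hp0 : ∀ w, 0 ≤ p w) (z : ι → Perm α)
    (hE : EXITF P F0 v0 p ρ e z) (hJ : ∀ w, (ρ w).length ≤ J) (hM : 0 < P.card)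
    (R : Finset α) (m : ℕ) (hv0 : 4 * (m * (P.card * J)) ≤ v0) (A β x : ℝ) (hx : 0 < x)
    (hβ : 0 < β) (hA : (R.card : ℝ) ≤ A)
    (hpos : 0 < A + m * (β * P.card))
    (hbad : x < ∑ w, p w * (if β * P.card ≤ ((P.filter fun q => run z (ρ w) q ∈ R).card : ℝ)
      then (1 : ℝ) else 0))
    (hconv : 2 * (h : ℝ) ≤ m * (β * P.card) ^ 2 / (A + m * (β * P.card)))
    (he0 : e ≤ x * h / (2 * P.card)) :
    x ^ m * (x * h / (2 * P.card)) ^ m ≤
      ∑ a : Fin m → Ω, (∏ i, p (a i)) * ∑ b : Fin m → Ω, (∏ i, p (b i)) *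
        (if okl P F0 h z (univ.biUnion fun i => img P z (ρ (a i)))
          (univ.biUnion fun i => allpe z (ρ (a i)) P) m (fun i => ρ (b i)) then (1 : ℝ)
            else 0) := by
  have hMr : (0 : ℝ) < (P.card : ℝ) := by exact_mod_cast hM
  -- the conditional law
  obtain ⟨I, hI⟩ : ∃ I : Ω → ℝ, I = fun w =>
    if β * P.card ≤ ((P.filter fun q => run z (ρ w) q ∈ R).card : ℝ) then (1 : ℝ) else 0 :=
    ⟨_, rfl⟩
  have hI0 : ∀ w, 0 ≤ I w := fun w => by
    rw [hI]
    beta_reduce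
    split_ifs <;> norm_num
  have hI1 : ∀ w, I w ≤ 1 := fun w => by
    rw [hI]
    beta_reduce
    split_ifs <;> norm_num
  obtain ⟨c, hc⟩ : ∃ c, c = ∑ w, p w * I w := ⟨_, rfl⟩
  have hxc : x < c := by
    rw [hc, hI]
    exact hbad
  have hc0 : 0 < c := hx.trans hxc
  obtain ⟨ν, hν⟩ : ∃ ν : Ω → ℝ, ν = fun w => p w * I w / c := ⟨_, rfl⟩
  have hν0 : ∀ w, 0 ≤ ν w := fun w => by
    rw [hν]
    exact div_nonneg (mul_nonneg (hp0 w) (hI0 w)) hc0.le
  have hν1 : ∑ w, ν w = 1 := by
    rw [hν]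
    rw [← sum_div, ← hc, div_self hc0.ne']
  have hxν : ∀ w, x * ν w ≤ p w := fun w => by
    rw [hν]
    beta_reduce
    rw [← mul_div_assoc, div_le_iff₀ hc0]
    have h1 := hp0 w
    have h2 := hI0 w
    have h3 := hI1 w
    nlinarith [mul_nonneg h1 h2, mul_nonneg h1 (sub_nonneg.2 h3)]
  -- the mean of the number of points
  have hmean : β * P.card ≤ ∑ w, ν w * ((P.filter fun q => run z (ρ w) q ∈ R).card : ℝ) := by
    have h1 : β * P.card = ∑ w, ν w * (β * P.card) := by rw [← sum_mul, hν1, one_mul]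
    rw [h1]
    apply sum_le_sum
    intro w _
    by_cases h2 : β * P.card ≤ ((P.filter fun q => run z (ρ w) q ∈ R).card : ℝ)
    · exact mul_le_mul_of_nonneg_left h2 (hν0 w)
    · have h3 : ν w = 0 := by
        rw [hν, hI]
        beta_reduce
        rw [if_neg h2, mul_zero, zero_div]
      rw [h3, zero_mul, zero_mul]
  have hmg := mean_ge P ρ ν hν0 hν1 z R m A (β * P.card) hA (by positivity) hpos hmean
  obtain ⟨R1, hR1⟩ : ∃ R1 : (Fin m → Ω) → Finset α, R1 = fun a =>
    univ.biUnion fun i => img P z (ρ (a i)) := ⟨_, rfl⟩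
  have hmg2 : 2 * (h : ℝ) ≤ ∑ a : Fin m → Ω, (∏ i, ν (a i)) *
      ∑ w, ν w * ((P.filter fun q => run z (ρ w) q ∈ R1 a).card : ℝ) := by
    rw [hR1]
    exact hconv.trans hmg
  -- reverse Markov
  have hhit : ∀ a : Fin m → Ω, x * ((∑ w, ν w *
      ((P.filter fun q => run z (ρ w) q ∈ R1 a).card : ℝ) - h) / P.card) ≤
      hit P h p ρ z (R1 a) := by
    intro a
    refine (mul_le_mul_of_nonneg_left (hit_ge P h ρ ν hν0 hν1 hM z (R1 a)) hx.le).trans ?_
    unfold hit
    rw [mul_sum]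
    apply sum_le_sum
    intro w _
    rw [← mul_assoc]
    apply mul_le_mul_of_nonneg_right (hxν w)
    split_ifs <;> norm_num
  -- Jensen
  have hprod0 : ∀ a : Fin m → Ω, 0 ≤ ∏ i, ν (a i) := fun a => prod_nonneg fun i _ => hν0 _
  have hprodp : ∀ a : Fin m → Ω, 0 ≤ ∏ i, p (a i) := fun a => prod_nonneg fun i _ => hp0 _
  have hjen := Real.pow_arith_mean_le_arith_mean_pow univ (fun a : Fin m → Ω => ∏ i, ν (a i))
    (fun a => max (hit P h p ρ z (R1 a) - e) 0) (fun a _ => hprod0 a) (prod_sum_one hν1 m)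
    (fun a _ => le_max_right _ _) m
  have hmean2 : x * h / (2 * P.card) ≤ ∑ a : Fin m → Ω, (∏ i, ν (a i)) *
      max (hit P h p ρ z (R1 a) - e) 0 := by
    have h1 : ∑ a : Fin m → Ω, (∏ i, ν (a i)) * (x * ((∑ w, ν w *
        ((P.filter fun q => run z (ρ w) q ∈ R1 a).card : ℝ) - h) / P.card) - e) ≤
        ∑ a : Fin m → Ω, (∏ i, ν (a i)) * max (hit P h p ρ z (R1 a) - e) 0 := by
      apply sum_le_sum
      intro a _
      apply mul_le_mul_of_nonneg_left _ (hprod0 a)
      exact le_trans (by linarith [hhit a]) (le_max_left _ _)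
    refine le_trans ?_ h1
    have h2 : ∑ a : Fin m → Ω, (∏ i, ν (a i)) * (x * ((∑ w, ν w *
        ((P.filter fun q => run z (ρ w) q ∈ R1 a).card : ℝ) - h) / P.card) - e) =
        x / P.card * ((∑ a : Fin m → Ω, (∏ i, ν (a i)) *
          ∑ w, ν w * ((P.filter fun q => run z (ρ w) q ∈ R1 a).card : ℝ)) - h) - e := by
      have h3 : ∀ a : Fin m → Ω, (∏ i, ν (a i)) * (x * ((∑ w, ν w *
          ((P.filter fun q => run z (ρ w) q ∈ R1 a).card : ℝ) - h) / P.card) - e) =
          x / P.card * ((∏ i, ν (a i)) *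
            ∑ w, ν w * ((P.filter fun q => run z (ρ w) q ∈ R1 a).card : ℝ)) -
              (x / P.card * h + e) * (∏ i, ν (a i)) := by
        intro a
        ring
      rw [sum_congr rfl fun a _ => h3 a, sum_sub_distrib, ← mul_sum, ← mul_sum,
        prod_sum_one hν1]
      ring
    rw [h2]
    have h4 : 0 < x / (P.card : ℝ) := by positivity
    have h5 : x / P.card * (h : ℝ) ≤ x / P.card * ((∑ a : Fin m → Ω, (∏ i, ν (a i)) *
          ∑ w, ν w * ((P.filter fun q => run z (ρ w) q ∈ R1 a).card : ℝ)) - h) :=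
      mul_le_mul_of_nonneg_left (by linarith) h4.le
    have h6 : x * h / (2 * P.card) = x / P.card * (h : ℝ) / 2 := by
      field_simp
    rw [h6] at he0 ⊢
    linarith
  have hxh0 : 0 ≤ x * h / (2 * P.card) := by positivity
  have h1 : x ^ m * (x * h / (2 * P.card)) ^ m ≤ x ^ m * ∑ a : Fin m → Ω, (∏ i, ν (a i)) *
      max (hit P h p ρ z (R1 a) - e) 0 ^ m := by
    apply mul_le_mul_of_nonneg_left _ (pow_nonneg hx.le m)
    exact (pow_le_pow_left₀ hxh0 hmean2 m).trans hjen
  refine h1.trans ?_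
  rw [mul_sum]
  apply sum_le_sum
  intro a _
  have h2 : x ^ m * ∏ i, ν (a i) ≤ ∏ i, p (a i) := by
    have h3 : x ^ m * ∏ i, ν (a i) = ∏ i, (x * ν (a i)) := by
      rw [prod_mul_distrib, prod_const, card_univ, Fintype.card_fin]
    rw [h3]
    exact prod_le_prod (fun i _ => mul_nonneg hx.le (hν0 _)) fun i _ => hxν _
  rw [← mul_assoc]
  refine mul_le_mul h2 ?_ (pow_nonneg (le_max_right _ _) m) (hprodp a)
  have hH0 : (univ.biUnion fun i => allpe z (ρ (a i)) P).card ≤ m * (P.card * J) := by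
    refine card_biUnion_le.trans ?_
    calc ∑ i : Fin m, (allpe z (ρ (a i)) P).card ≤ ∑ _i : Fin m, P.card * J :=
          sum_le_sum fun i _ => (card_allpe_le z _ P).trans (Nat.mul_le_mul_left _ (hJ _))
      _ = _ := by rw [sum_const, card_univ, Fintype.card_fin, smul_eq_mul]
  have h4 := okl_lower P F0 h J v0 p ρ e hp0 z hE hJ (R1 a) m
    (univ.biUnion fun i => allpe z (ρ (a i)) P) (by omega)
  rw [hR1] at h4 ⊢
  exact h4

theorem ZZ_empty : (ZZ (∅ : Finset (ι × α × α))) = univ := by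
  ext z
  rw [mem_ZZ]
  exact ⟨fun _ => mem_univ _, fun _ e he => absurd he (notMem_empty _)⟩

theorem expo_first (m : ℕ) (a : Fin m → List (ι × Bool)) :
    Expo (∅ : Finset (ι × α × α)) fun z => univ.biUnion fun i => allpe z (a i) P where
  mem z _ := by
    rw [mem_ZZ]
    intro e he
    rw [mem_biUnion] at he
    obtain ⟨i, -, hi⟩ := he
    exact (mem_ZZ _ z).1 (mem_allpe z (a i) P) e hi
  sub _ _ := empty_subset _
  det z _ z' hz' := by
    apply biUnion_congr rfl
    intro i _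
    exact (allpe_congr hz' (subset_biUnion_of_mem (fun i => allpe z (a i) P) (mem_univ i))).1

open scoped Classical in
/-- the bad families, general form -/
def Bad2 (x β A : ℝ) (z : ι → Perm α) : Prop :=
  EXITF P F0 v0 p ρ e z ∧ ∃ R : Finset α, (R.card : ℝ) ≤ A ∧
    x < ∑ w, p w * (if β * P.card ≤ ((P.filter fun q => run z (ρ w) q ∈ R).card : ℝ)
      then (1 : ℝ) else 0)

open scoped Classical in
/-- the bad families -/
def Bad (x β A : ℝ) (z : ι → Perm α) : Prop :=
  (∀ w, FIX z (ρ w) F0) ∧ EXIT P v0 p ρ e z ∧ ∃ R : Finset α, (R.card : ℝ) ≤ A ∧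
    x < ∑ w, p w * (if β * P.card ≤ ((P.filter fun q => run z (ρ w) q ∈ R).card : ℝ)
      then (1 : ℝ) else 0)

theorem Bad2_of {x β A : ℝ} {z : ι → Perm α} (h : Bad P F0 v0 p ρ e x β A z) :
    Bad2 P F0 v0 p ρ e x β A z := ⟨EXITF_of P F0 v0 p ρ e h.1 h.2.1, h.2.2⟩

open scoped Classical in
/-- **The sampler lemma**, unnormalised form. -/
theorem sl_aux (hp0 : ∀ w, 0 ≤ p w) (hp1 : ∑ w, p w = 1)
    (hred : ∀ w, FreeGroup.IsReduced (ρ w)) (hJ : ∀ w, (ρ w).length ≤ J) (hM : 0 < P.card)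
    (m : ℕ) (hv0 : 4 * (m * (P.card * J)) ≤ v0) (A β x : ℝ) (hx : 0 < x)
    (hβ : 0 < β) (hpos : 0 < A + m * (β * P.card))
    (hconv : 2 * (h : ℝ) ≤ m * (β * P.card) ^ 2 / (A + m * (β * P.card)))
    (he0 : e ≤ x * h / (2 * P.card)) (D : ℕ) (hD0 : 0 < D)
    (hD : D + 2 * (m * (P.card * J)) ≤ Fintype.card α) :
    ((univ.filter fun z : ι → Perm α => Bad2 P F0 v0 p ρ e x β A z).card : ℝ) *
      (x ^ m * (x * h / (2 * P.card)) ^ m) ≤
      ((P.card.choose h : ℝ) * (((m : ℝ) * P.card + (J : ℝ) ^ 2 * (1 + (F0 : ℝ))) / D) ^ h) ^ m *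
        (Fintype.card (ι → Perm α) : ℝ) := by
  obtain ⟨T, hT⟩ : ∃ T : (ι → Perm α) → (Fin m → Ω) → (Fin m → Ω) → ℝ, T = fun z a b =>
    if okl P F0 h z (univ.biUnion fun i => img P z (ρ (a i)))
          (univ.biUnion fun i => allpe z (ρ (a i)) P) m (fun i => ρ (b i)) then (1 : ℝ)
            else 0 := ⟨_, rfl⟩
  have hT0 : ∀ z a b, 0 ≤ T z a b := fun z a b => by
    rw [hT]
    beta_reduce
    split_ifs <;> norm_num
  have hprodp : ∀ a : Fin m → Ω, 0 ≤ ∏ i, p (a i) := fun a => prod_nonneg fun i _ => hp0 _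
  obtain ⟨c, hc⟩ : ∃ c : ℝ, c = ((P.card.choose h : ℝ) *
    (((m : ℝ) * P.card + (J : ℝ) ^ 2 * (1 + (F0 : ℝ))) / D) ^ h) ^ m := ⟨_, rfl⟩
  rw [← hc]
  -- fixed words
  have hab : ∀ a b : Fin m → Ω, ∑ z, T z a b ≤ c * (Fintype.card (ι → Perm α) : ℝ) := by
    intro a b
    have h1 := expose_sum (expo_first (α := α) P m fun i => ρ (a i)) (fun z => T z a b) c (by
      intro z _
      have hRc : (univ.biUnion fun i => img P z (ρ (a i))).card ≤ m * P.card := by
        refine card_biUnion_le.trans ?_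
        calc ∑ i : Fin m, (img P z (ρ (a i))).card ≤ ∑ _i : Fin m, P.card :=
              sum_le_sum fun i _ => card_image_le
          _ = _ := by rw [sum_const, card_univ, Fintype.card_fin, smul_eq_mul]
      have hHc : (univ.biUnion fun i => allpe z (ρ (a i)) P).card ≤ m * (P.card * J) := by
        refine card_biUnion_le.trans ?_
        calc ∑ i : Fin m, (allpe z (ρ (a i)) P).card ≤ ∑ _i : Fin m, P.card * J :=
              sum_le_sum fun i _ => (card_allpe_le z _ P).trans (Nat.mul_le_mul_left _ (hJ _))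
          _ = _ := by rw [sum_const, card_univ, Fintype.card_fin, smul_eq_mul]
      have h2 := slc P F0 h D J hD0 (univ.biUnion fun i => img P z (ρ (a i))) m
        (fun i => ρ (b i)) (univ.biUnion fun i => allpe z (ρ (a i)) P)
        (fun i => ⟨hred _, hJ _⟩) (by omega)
      have h3 : ∑ z' ∈ ZZ (univ.biUnion fun i => allpe z (ρ (a i)) P), T z' a b =
          ∑ z' ∈ ZZ (univ.biUnion fun i => allpe z (ρ (a i)) P),
            (if okl P F0 h z' (univ.biUnion fun i => img P z (ρ (a i)))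
              (univ.biUnion fun i => allpe z (ρ (a i)) P) m (fun i => ρ (b i)) then (1 : ℝ)
                else 0) := by
        apply sum_congr rfl
        intro z' hz'
        have h4 : ∀ i, allpe z' (ρ (a i)) P = allpe z (ρ (a i)) P ∧
            ∀ q ∈ P, run z' (ρ (a i)) q = run z (ρ (a i)) q := fun i =>
          allpe_congr hz' (subset_biUnion_of_mem (fun i => allpe z (ρ (a i)) P) (mem_univ i))
        have h5 : ∀ i, img P z' (ρ (a i)) = img P z (ρ (a i)) := fun i => by
          unfold img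
          exact image_congr fun q hq => (h4 i).2 q (mem_coe.1 hq)
        rw [hT]
        simp only [h5, (h4 _).1]
      rw [h3]
      refine h2.trans ?_
      apply mul_le_mul_of_nonneg_right _ (Nat.cast_nonneg _)
      rw [hc]
      apply pow_le_pow_left₀ (by positivity)
      apply mul_le_mul_of_nonneg_left _ (Nat.cast_nonneg _)
      apply pow_le_pow_left₀ (by positivity)
      apply div_le_div_of_nonneg_right _ (Nat.cast_nonneg _)
      have h6 : ((univ.biUnion fun i => img P z (ρ (a i))).card : ℝ) ≤ (m : ℝ) * P.card := by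
        exact_mod_cast hRc
      linarith)
    rw [ZZ_empty] at h1
    rw [card_univ] at h1
    exact h1
  -- summation
  have h1 : ((univ.filter fun z : ι → Perm α => Bad2 P F0 v0 p ρ e x β A z).card : ℝ) *
      (x ^ m * (x * h / (2 * P.card)) ^ m) ≤
      ∑ z, ∑ a : Fin m → Ω, (∏ i, p (a i)) * ∑ b : Fin m → Ω, (∏ i, p (b i)) * T z a b := by
    rw [← nsmul_eq_mul, ← sum_const, sum_filter]
    apply sum_le_sum
    intro z _
    by_cases hb : Bad2 P F0 v0 p ρ e x β A z
    · rw [if_pos hb]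
      obtain ⟨hE, R, hRA, hbad⟩ := hb
      have h2 := bad_lower P F0 h J v0 p ρ e hp0 z hE hJ hM R m hv0 A β x hx hβ hRA hpos
        hbad hconv he0
      rw [hT]
      exact h2
    · rw [if_neg hb]
      exact sum_nonneg fun a _ => mul_nonneg (hprodp a) (sum_nonneg fun b _ =>
        mul_nonneg (hprodp b) (hT0 z a b))
  refine h1.trans ?_
  rw [sum_comm]
  have h2 : ∀ a : Fin m → Ω, ∑ z, (∏ i, p (a i)) * ∑ b : Fin m → Ω, (∏ i, p (b i)) * T z a b ≤
      (∏ i, p (a i)) * (c * (Fintype.card (ι → Perm α) : ℝ)) := by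
    intro a
    rw [← mul_sum]
    apply mul_le_mul_of_nonneg_left _ (hprodp a)
    rw [sum_comm]
    calc ∑ b : Fin m → Ω, ∑ z, (∏ i, p (b i)) * T z a b ≤
          ∑ b : Fin m → Ω, (∏ i, p (b i)) * (c * (Fintype.card (ι → Perm α) : ℝ)) := by
          apply sum_le_sum
          intro b _
          rw [← mul_sum]
          exact mul_le_mul_of_nonneg_left (hab a b) (hprodp b)
      _ = _ := by rw [← sum_mul, prod_sum_one hp1, one_mul]
  refine (sum_le_sum fun a _ => h2 a).trans (le_of_eq ?_)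
  rw [← sum_mul, prod_sum_one hp1, one_mul]

open scoped Classical in
/-- **The sampler lemma**, general form. -/
theorem sl2 (hp0 : ∀ w, 0 ≤ p w) (hp1 : ∑ w, p w = 1)
    (hred : ∀ w, FreeGroup.IsReduced (ρ w)) (hJ : ∀ w, (ρ w).length ≤ J) (hM : 0 < P.card)
    (hh : 0 < h) (m : ℕ) (hv0 : 4 * (m * (P.card * J)) ≤ v0) (A β x : ℝ) (hx : 0 < x)
    (hβ : 0 < β) (hpos : 0 < A + m * (β * P.card))
    (hconv : 2 * (h : ℝ) ≤ m * (β * P.card) ^ 2 / (A + m * (β * P.card)))
    (he0 : e ≤ x * h / (2 * P.card)) (D : ℕ) (hD0 : 0 < D)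
    (hD : D + 2 * (m * (P.card * J)) ≤ Fintype.card α) :
    ((univ.filter fun z : ι → Perm α => Bad2 P F0 v0 p ρ e x β A z).card : ℝ) ≤
      ((P.card.choose h : ℝ) * (((m : ℝ) * P.card + (J : ℝ) ^ 2 * (1 + (F0 : ℝ))) / D) ^ h *
        (2 * P.card / (x ^ 2 * h))) ^ m * (Fintype.card (ι → Perm α) : ℝ) := by
  have h1 := sl_aux P F0 h J v0 p ρ e hp0 hp1 hred hJ hM m hv0 A β x hx hβ hpos hconv he0 D
    hD0 hD
  have hMr : (0 : ℝ) < (P.card : ℝ) := by exact_mod_cast hM
  have hhr : (0 : ℝ) < (h : ℝ) := by exact_mod_cast hh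
  have h2 : 0 < x ^ m * (x * h / (2 * P.card)) ^ m := by positivity
  rw [← le_div_iff₀ h2] at h1
  refine h1.trans (le_of_eq ?_)
  rw [mul_pow _ (2 * (P.card : ℝ) / (x ^ 2 * h)) m]
  have h3 : (2 * (P.card : ℝ) / (x ^ 2 * h)) ^ m = 1 / (x ^ m * (x * h / (2 * P.card)) ^ m) := by
    rw [← mul_pow, ← one_div_pow]
    congr 1
    field_simp
  rw [h3]
  ring

open scoped Classical in
/-- **The sampler lemma.** -/
theorem sl (hp0 : ∀ w, 0 ≤ p w) (hp1 : ∑ w, p w = 1)
    (hred : ∀ w, FreeGroup.IsReduced (ρ w)) (hJ : ∀ w, (ρ w).length ≤ J) (hM : 0 < P.card)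
    (hh : 0 < h) (m : ℕ) (hv0 : 4 * (m * (P.card * J)) ≤ v0) (A β x : ℝ) (hx : 0 < x)
    (hβ : 0 < β) (hpos : 0 < A + m * (β * P.card))
    (hconv : 2 * (h : ℝ) ≤ m * (β * P.card) ^ 2 / (A + m * (β * P.card)))
    (he0 : e ≤ x * h / (2 * P.card)) (D : ℕ) (hD0 : 0 < D)
    (hD : D + 2 * (m * (P.card * J)) ≤ Fintype.card α) :
    ((univ.filter fun z : ι → Perm α => Bad P F0 v0 p ρ e x β A z).card : ℝ) ≤
      ((P.card.choose h : ℝ) * (((m : ℝ) * P.card + (J : ℝ) ^ 2 * (1 + (F0 : ℝ))) / D) ^ h *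
        (2 * P.card / (x ^ 2 * h))) ^ m * (Fintype.card (ι → Perm α) : ℝ) := by
  refine le_trans ?_ (sl2 P F0 h J v0 p ρ e hp0 hp1 hred hJ hM hh m hv0 A β x hx hβ hpos hconv
    he0 D hD0 hD)
  have h1 : (univ.filter fun z : ι → Perm α => Bad P F0 v0 p ρ e x β A z) ⊆
      univ.filter fun z : ι → Perm α => Bad2 P F0 v0 p ρ e x β A z := by
    intro z hz
    rw [mem_filter] at hz ⊢
    exact ⟨hz.1, Bad2_of P F0 v0 p ρ e hz.2⟩
  exact_mod_cast card_le_card h1

end Pool.Agent.Helper60.FS
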