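import Mathlib

/-!
# Numbers for the sampler lemma (MP_75608d_al)
-/

set_option autoImplicit false

namespace Pool.Agent.Helper60.FS

/-- the standing assumptions on the numbers -/
structure Nums (n J M F0 K : ℕ) (Y L : ℝ) : Prop where
  hY : 10 ^ 12 ≤ Y
  hn : (n : ℝ) = Y ^ 100
  hL : 100 ≤ L
  hLY : L ≤ Y
  hexp : Real.exp L = Y ^ 100
  hJ1 : 200 * L ≤ J
  hJ2 : (J : ℝ) ≤ 201 * L
  hM1 : 4000 * L ^ 2 ≤ M
  hM2 : (M : ℝ) ≤ Y ^ 10
  hF : (F0 : ℝ) ≤ Y ^ 60 + 1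
  hK : (K : ℝ) ≤ Y

namespace Nums

variable {n J M F0 K : ℕ} {Y L : ℝ} (N : Nums n J M F0 K Y L)
include N

theorem big {C : ℝ} (hC : C ≤ 10 ^ 12) {a b : ℕ} (hab : a + 1 ≤ b) : C * Y ^ a ≤ Y ^ b := by
  have h1 : (1 : ℝ) ≤ Y := le_trans (by norm_num) N.hY
  have h0 : (0 : ℝ) ≤ Y ^ a := pow_nonneg (by linarith) a
  calc C * Y ^ a ≤ Y * Y ^ a := mul_le_mul_of_nonneg_right (hC.trans N.hY) h0
    _ = Y ^ (a + 1) := by ring
    _ ≤ Y ^ b := pow_le_pow_right₀ h1 hab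

theorem Y0 : 0 < Y := lt_of_lt_of_le (by norm_num) N.hY

theorem J0 : (20000 : ℝ) ≤ J := by
  have := N.hJ1
  have := N.hL
  linarith

theorem JY : (J : ℝ) ≤ 201 * Y := by
  have := N.hJ2
  have := N.hLY
  linarith

theorem M12 : 12 * (J : ℝ) ≤ M := by
  have h1 := N.hJ2
  have h2 := N.hM1
  have h3 := N.hL
  nlinarith

theorem M0 : (0 : ℝ) < M := by
  have := N.M12
  have := N.J0
  linarith

theorem MJ : (M : ℝ) * J ≤ 201 * Y ^ 11 := by
  have h1 := N.hM2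
  have h2 := N.JY
  have h3 := N.J0
  have h4 := N.Y0
  calc (M : ℝ) * J ≤ Y ^ 10 * (201 * Y) := mul_le_mul h1 h2 (by linarith) (by positivity)
    _ = 201 * Y ^ 11 := by ring

theorem MJ0 : 0 < M * J := by
  have h1 := N.M0
  have h2 := N.J0
  have h3 : 0 < M := by exact_mod_cast h1
  have h4 : (0 : ℝ) < J := by linarith
  have h5 : 0 < J := by exact_mod_cast h4
  exact Nat.mul_pos h3 h5

/-- number of words -/
theorem m_le : ((n / (200 * (M * J)) : ℕ) : ℝ) * (200 * (M * J)) ≤ Y ^ 100 := by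
  rw [← N.hn]
  exact_mod_cast Nat.div_mul_le_self n (200 * (M * J))

theorem m_ge : Y ^ 100 ≤ (((n / (200 * (M * J)) : ℕ) : ℝ) + 1) * (200 * (M * J)) := by
  rw [← N.hn]
  have h1 : n < n / (200 * (M * J)) * (200 * (M * J)) + 200 * (M * J) :=
    Nat.lt_div_mul_add (by have := N.MJ0; omega)
  have h2 : (n : ℝ) < ((n / (200 * (M * J)) : ℕ) : ℝ) * (200 * (M * J)) + 200 * (M * J) := by
    exact_mod_cast h1
  linarith

theorem h_le : ((M / (3 * J) : ℕ) : ℝ) * (3 * J) ≤ M := by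
  exact_mod_cast Nat.div_mul_le_self M (3 * J)

theorem h_ge : (M : ℝ) ≤ (((M / (3 * J) : ℕ) : ℝ) + 1) * (3 * J) := by
  have hJ : 0 < J := by
    have h2 := N.J0
    have h4 : (0 : ℝ) < J := by linarith
    exact_mod_cast h4
  have h1 : M < M / (3 * J) * (3 * J) + 3 * J := Nat.lt_div_mul_add (by omega)
  have h2 : (M : ℝ) < ((M / (3 * J) : ℕ) : ℝ) * (3 * J) + 3 * J := by exact_mod_cast h1
  linarith

theorem h_4L : 4 * L ≤ ((M / (3 * J) : ℕ) : ℝ) := by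
  have h1 := N.h_ge
  have h2 := N.hM1
  have h3 := N.hJ2
  have h4 := N.hL
  have h5 := N.J0
  by_contra h
  push Not at h
  have h6 : (((M / (3 * J) : ℕ) : ℝ) + 1) * (3 * J) ≤ (4 * L + 1) * (3 * (201 * L)) := by
    apply mul_le_mul (by linarith) (by linarith) (by linarith) (by linarith)
  nlinarith

theorem M_4Jh : (M : ℝ) ≤ 4 * J * ((M / (3 * J) : ℕ) : ℝ) := by
  have h1 := N.h_ge
  have h2 := N.M12
  nlinarith

theorem h_pos : 0 < M / (3 * J) := by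
  have h1 := N.h_4L
  have h2 := N.hL
  have h3 : (0 : ℝ) < ((M / (3 * J) : ℕ) : ℝ) := by linarith
  exact_mod_cast h3

theorem c1 : 4 * (n / (200 * (M * J)) * (M * J)) ≤ n / 50 := by
  rw [Nat.le_div_iff_mul_le (by norm_num)]
  have h1 := Nat.div_mul_le_self n (200 * (M * J))
  calc 4 * (n / (200 * (M * J)) * (M * J)) * 50 = n / (200 * (M * J)) * (200 * (M * J)) := by ring
    _ ≤ n := h1

theorem c2 : (n - n / 100) + 2 * (n / (200 * (M * J)) * (M * J)) ≤ n := by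
  have h2 : 2 * (n / (200 * (M * J)) * (M * J)) ≤ n / 100 := by
    rw [Nat.le_div_iff_mul_le (by norm_num)]
    have h1 := Nat.div_mul_le_self n (200 * (M * J))
    calc 2 * (n / (200 * (M * J)) * (M * J)) * 100 = n / (200 * (M * J)) * (200 * (M * J)) := by
          ring
      _ ≤ n := h1
  have h3 : n / 100 ≤ n := Nat.div_le_self n 100
  omega

theorem D_ge : 99 / 100 * Y ^ 100 ≤ ((n - n / 100 : ℕ) : ℝ) := by
  rw [Nat.cast_sub (Nat.div_le_self n 100), ← N.hn]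
  have h1 : ((n / 100 : ℕ) : ℝ) ≤ (n : ℝ) / 100 := Nat.cast_div_le
  linarith

theorem Q_le : (((n / (200 * (M * J)) : ℕ) : ℝ) * M + (J : ℝ) ^ 2 * (1 + (F0 : ℝ))) /
    ((n - n / 100 : ℕ) : ℝ) ≤ 1 / (190 * J) := by
  have hD := N.D_ge
  have hY := N.Y0
  have hY100 : 0 < Y ^ 100 := by positivity
  have hD0 : (0 : ℝ) < ((n - n / 100 : ℕ) : ℝ) := by linarith
  have hJ := N.J0
  have hJ0 : (0 : ℝ) < J := by linarith
  rw [div_le_div_iff₀ hD0 (by positivity), one_mul]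
  have h1 := N.m_le
  have h2 : ((n / (200 * (M * J)) : ℕ) : ℝ) * M * J ≤ Y ^ 100 / 200 := by linarith
  have h3 : (J : ℝ) ^ 3 * (1 + (F0 : ℝ)) ≤ 201 ^ 3 * Y ^ 3 * (2 * Y ^ 60) := by
    have h4 : (J : ℝ) ^ 3 ≤ 201 ^ 3 * Y ^ 3 := by
      rw [← mul_pow]
      exact pow_le_pow_left₀ hJ0.le N.JY 3
    have h5 : 1 + (F0 : ℝ) ≤ 2 * Y ^ 60 := by
      have h6 := N.hF
      have h7 : 2 * Y ^ 0 ≤ Y ^ 60 := N.big (by norm_num) (by norm_num)
      rw [pow_zero, mul_one] at h7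
      linarith
    exact mul_le_mul h4 h5 (by positivity) (by positivity)
  have h8 : 10 ^ 12 * Y ^ 63 ≤ Y ^ 100 := N.big le_rfl (by norm_num)
  have h9 : (201 : ℝ) ^ 3 * Y ^ 3 * (2 * Y ^ 60) = 16241202 * Y ^ 63 := by ring
  have h10 : (((n / (200 * (M * J)) : ℕ) : ℝ) * M + (J : ℝ) ^ 2 * (1 + (F0 : ℝ))) * (190 * J) =
      190 * (((n / (200 * (M * J)) : ℕ) : ℝ) * M * J + (J : ℝ) ^ 3 * (1 + (F0 : ℝ))) := by ring
  rw [h10]
  rw [h9] at h3
  linarith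

/-- the convexity condition -/
theorem conv : 2 * ((M / (3 * J) : ℕ) : ℝ) ≤ ((n / (200 * (M * J)) : ℕ) : ℝ) *
    (1 / 16 * (M : ℝ)) ^ 2 / (((n / 51200 : ℕ) : ℝ) + ((n / (200 * (M * J)) : ℕ) : ℝ) *
      (1 / 16 * (M : ℝ))) := by
  have hY := N.Y0
  have hY100 : 0 < Y ^ 100 := by positivity
  have hJ := N.J0
  have hJ0 : (0 : ℝ) < J := by linarith
  have hM := N.M0
  obtain ⟨m, hm⟩ : ∃ m : ℝ, m = ((n / (200 * (M * J)) : ℕ) : ℝ) := ⟨_, rfl⟩
  obtain ⟨h, hh⟩ : ∃ h : ℝ, h = ((M / (3 * J) : ℕ) : ℝ) := ⟨_, rfl⟩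
  have h1 := N.m_le
  have h2 := N.m_ge
  have h3 := N.h_le
  rw [← hm] at h1 h2
  rw [← hh] at h3
  rw [← hm, ← hh]
  have hA : ((n / 51200 : ℕ) : ℝ) ≤ Y ^ 100 / 51200 := by
    rw [← N.hn]
    exact Nat.cast_div_le
  have hh0 : 0 ≤ h := by rw [hh]; exact Nat.cast_nonneg _
  have hMJ : 10 ^ 4 * ((M : ℝ) * J) ≤ Y ^ 100 := by
    have h4 := N.MJ
    have h5 : 10 ^ 12 * Y ^ 11 ≤ Y ^ 100 := N.big le_rfl (by norm_num)
    nlinarith
  have hMJ0 : 0 < (M : ℝ) * J := by positivity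
  have hm1 : 1 ≤ m := by
    by_contra hc
    push Not at hc
    nlinarith
  have hpos : 0 < ((n / 51200 : ℕ) : ℝ) + m * (1 / 16 * (M : ℝ)) := by
    have h4 : (0 : ℝ) ≤ ((n / 51200 : ℕ) : ℝ) := Nat.cast_nonneg _
    have h5 : 0 < m * (1 / 16 * (M : ℝ)) := by positivity
    linarith
  rw [le_div_iff₀ hpos]
  -- the denominator, times J
  have h6 : (((n / 51200 : ℕ) : ℝ) + m * (1 / 16 * (M : ℝ))) * J ≤
      Y ^ 100 / 51200 * J + Y ^ 100 / 3200 := by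
    have h7 := mul_le_mul_of_nonneg_right hA hJ0.le
    nlinarith
  have h8 : Y ^ 100 / 3200 ≤ 1 / 1000 * (Y ^ 100 / 51200 * J) := by
    have h9 := mul_le_mul_of_nonneg_left hJ hY100.le
    linarith
  have h10 : (((n / 51200 : ℕ) : ℝ) + m * (1 / 16 * (M : ℝ))) ≤ 1001 / 1000 * (Y ^ 100 / 51200) := by
    have h11 : (((n / 51200 : ℕ) : ℝ) + m * (1 / 16 * (M : ℝ))) * J ≤
      1001 / 1000 * (Y ^ 100 / 51200) * J := by linarith
    exact le_of_mul_le_mul_right h11 hJ0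
  -- multiply by 3 J
  have h12 : 2 * h * (((n / 51200 : ℕ) : ℝ) + m * (1 / 16 * (M : ℝ))) * (3 * J) ≤
      2 * M * (1001 / 1000 * (Y ^ 100 / 51200)) := by
    calc 2 * h * (((n / 51200 : ℕ) : ℝ) + m * (1 / 16 * (M : ℝ))) * (3 * J) =
        2 * (h * (3 * J)) * (((n / 51200 : ℕ) : ℝ) + m * (1 / 16 * (M : ℝ))) := by ring
      _ ≤ 2 * M * (1001 / 1000 * (Y ^ 100 / 51200)) := by
        apply mul_le_mul (by linarith) h10 hpos.le (by positivity)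
  have h13 : m * (1 / 16 * (M : ℝ)) ^ 2 * (3 * J) = 3 / 51200 * M * (m * (200 * (M * J))) := by
    ring
  have h14 : Y ^ 100 - 200 * (M * J) ≤ m * (200 * (M * J)) := by linarith
  have h15 : 2 * M * (1001 / 1000 * (Y ^ 100 / 51200)) ≤
      3 / 51200 * M * (m * (200 * (M * J))) := by
    have h16 : 1001 / 1000 * 2 * Y ^ 100 ≤ 3 * (m * (200 * (M * J))) := by nlinarith
    have h17 := mul_le_mul_of_nonneg_left h16 (show 0 ≤ (M : ℝ) / 51200 by positivity)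
    calc 2 * M * (1001 / 1000 * (Y ^ 100 / 51200)) =
        (M : ℝ) / 51200 * (1001 / 1000 * 2 * Y ^ 100) := by ring
      _ ≤ (M : ℝ) / 51200 * (3 * (m * (200 * (M * J)))) := h17
      _ = _ := by ring
  have h18 : 2 * h * (((n / 51200 : ℕ) : ℝ) + m * (1 / 16 * (M : ℝ))) * (3 * J) ≤
      m * (1 / 16 * (M : ℝ)) ^ 2 * (3 * J) := by
    rw [h13]
    exact h12.trans h15
  exact le_of_mul_le_mul_right h18 (by positivity)

theorem pos : 0 < ((n / 51200 : ℕ) : ℝ) + ((n / (200 * (M * J)) : ℕ) : ℝ) *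
      (1 / 16 * (M : ℝ)) := by
  have hY := N.Y0
  have hM := N.M0
  have hJ := N.J0
  have hJ0 : (0 : ℝ) < J := by linarith
  obtain ⟨m, hm⟩ : ∃ m : ℝ, m = ((n / (200 * (M * J)) : ℕ) : ℝ) := ⟨_, rfl⟩
  have h2 := N.m_ge
  rw [← hm] at h2
  have hMJ : 10 ^ 4 * ((M : ℝ) * J) ≤ Y ^ 100 := by
    have h4 := N.MJ
    have h5 : 10 ^ 12 * Y ^ 11 ≤ Y ^ 100 := N.big le_rfl (by norm_num)
    nlinarith
  have hMJ0 : 0 < (M : ℝ) * J := by positivity
  have hm1 : 1 ≤ m := by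
    by_contra hc
    push Not at hc
    nlinarith
  rw [← hm]
  have h4 : (0 : ℝ) ≤ ((n / 51200 : ℕ) : ℝ) := Nat.cast_nonneg _
  have h5 : 0 < m * (1 / 16 * (M : ℝ)) := by positivity
  linarith

/-- the error of the exit property is small enough -/
theorem err : (Y ^ 30)⁻¹ + (Y ^ 40)⁻¹ ≤ (Y ^ 10)⁻¹ * ((M / (3 * J) : ℕ) : ℝ) / (2 * M) := by
  have hY := N.Y0
  have hM := N.M0
  have hJ := N.J0
  have hJ0 : (0 : ℝ) < J := by linarith
  obtain ⟨h, hh⟩ : ∃ h : ℝ, h = ((M / (3 * J) : ℕ) : ℝ) := ⟨_, rfl⟩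
  have h1 := N.M_4Jh
  rw [← hh] at h1 ⊢
  have h2 : (Y ^ 30)⁻¹ + (Y ^ 40)⁻¹ ≤ 2 * (Y ^ 30)⁻¹ := by
    have h3 : (Y ^ 40)⁻¹ ≤ (Y ^ 30)⁻¹ := by
      apply inv_anti₀ (by positivity)
      exact pow_le_pow_right₀ (le_trans (by norm_num) N.hY) (by norm_num)
    linarith
  have h4 : (Y ^ 10)⁻¹ / (8 * J) ≤ (Y ^ 10)⁻¹ * h / (2 * M) := by
    rw [mul_div_assoc, div_eq_mul_inv]
    apply mul_le_mul_of_nonneg_left _ (by positivity)
    rw [inv_eq_one_div, div_le_div_iff₀ (by positivity) (by positivity)]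
    linarith
  have h5 : 2 * (Y ^ 30)⁻¹ ≤ (Y ^ 10)⁻¹ / (8 * J) := by
    have h6 : (Y ^ 30)⁻¹ = (Y ^ 10)⁻¹ * (Y ^ 20)⁻¹ := by
      rw [← mul_inv, ← pow_add]
    rw [h6, le_div_iff₀ (by positivity)]
    have h7 : 2 * (8 * (J : ℝ)) ≤ Y ^ 20 := by
      have h8 := N.JY
      have h9 : 3216 * Y ^ 1 ≤ Y ^ 20 := N.big (by norm_num) (by norm_num)
      rw [pow_one] at h9
      linarith
    have h10 : (Y ^ 20)⁻¹ * (2 * (8 * (J : ℝ))) ≤ 1 := by
      rw [inv_mul_le_iff₀ (by positivity), mul_one]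
      exact h7
    calc 2 * ((Y ^ 10)⁻¹ * (Y ^ 20)⁻¹) * (8 * (J : ℝ)) =
        (Y ^ 10)⁻¹ * ((Y ^ 20)⁻¹ * (2 * (8 * (J : ℝ)))) := by ring
      _ ≤ (Y ^ 10)⁻¹ * 1 := mul_le_mul_of_nonneg_left h10 (by positivity)
      _ = (Y ^ 10)⁻¹ := mul_one _
  linarith

omit N in
/-- binomial tail -/
theorem choose_pow_le (M h : ℕ) (hh : 0 < h) (q : ℝ) (hq : 0 ≤ q)
    (hb : Real.exp 1 * (M * q / h) ≤ Real.exp (-1)) :
    (M.choose h : ℝ) * q ^ h ≤ Real.exp (-h) := by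
  have hhr : (0 : ℝ) < h := by exact_mod_cast hh
  have h1 : (M.choose h : ℝ) ≤ (M : ℝ) ^ h / (h.factorial : ℝ) := Nat.choose_le_pow_div h M
  have h2 : (h : ℝ) ^ h / (h.factorial : ℝ) ≤ Real.exp h :=
    Real.pow_div_factorial_le_exp h hhr.le h
  calc (M.choose h : ℝ) * q ^ h ≤ (M : ℝ) ^ h / (h.factorial : ℝ) * q ^ h :=
        mul_le_mul_of_nonneg_right h1 (pow_nonneg hq h)
    _ = (M * q / h) ^ h * ((h : ℝ) ^ h / (h.factorial : ℝ)) := by
        rw [div_pow, mul_pow]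
        field_simp
    _ ≤ (M * q / h) ^ h * Real.exp h :=
        mul_le_mul_of_nonneg_left h2 (pow_nonneg (by positivity) h)
    _ = (Real.exp 1 * (M * q / h)) ^ h := by
        rw [mul_pow, ← Real.exp_nat_mul, mul_one, mul_comm]
    _ ≤ Real.exp (-1) ^ h := pow_le_pow_left₀ (by positivity) hb h
    _ = Real.exp (-h) := by
        rw [← Real.exp_nat_mul]
        congr 1
        ring

/-- one word -/
theorem word : (M.choose (M / (3 * J)) : ℝ) *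
    ((((n / (200 * (M * J)) : ℕ) : ℝ) * M + (J : ℝ) ^ 2 * (1 + (F0 : ℝ))) /
      ((n - n / 100 : ℕ) : ℝ)) ^ (M / (3 * J)) *
        (2 * M / (((Y ^ 10)⁻¹) ^ 2 * ((M / (3 * J) : ℕ) : ℝ))) ≤ Real.exp (-L) := by
  have hY := N.Y0
  have hM := N.M0
  have hJ := N.J0
  have hJ0 : (0 : ℝ) < J := by linarith
  have hh := N.h_pos
  obtain ⟨h, hhd⟩ : ∃ h : ℕ, h = M / (3 * J) := ⟨_, rfl⟩
  have h4L := N.h_4L
  have h4J := N.M_4Jh
  have hQ := N.Q_le
  obtain ⟨q, hq⟩ : ∃ q : ℝ, q = (((n / (200 * (M * J)) : ℕ) : ℝ) * M +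
    (J : ℝ) ^ 2 * (1 + (F0 : ℝ))) / ((n - n / 100 : ℕ) : ℝ) := ⟨_, rfl⟩
  rw [← hq] at hQ
  rw [← hq]
  rw [← hhd] at hh h4L h4J ⊢
  have hhr : (0 : ℝ) < h := by exact_mod_cast hh
  have hq0 : 0 ≤ q := by
    rw [hq]
    positivity
  have h1 : Real.exp 1 * (M * q / h) ≤ Real.exp (-1) := by
    have h2 : M * q / h ≤ 4 / 190 := by
      rw [div_le_iff₀ hhr]
      calc (M : ℝ) * q ≤ (4 * J * h) * (1 / (190 * J)) :=
            mul_le_mul h4J hQ hq0 (by positivity)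
        _ = 4 / 190 * h := by
            field_simp
    have h3 : Real.exp 1 ≤ 3 := le_trans Real.exp_one_lt_d9.le (by norm_num)
    have h5 : Real.exp (-1) * Real.exp 1 = 1 := by
      rw [← Real.exp_add]
      norm_num
    have h6 : 0 < Real.exp 1 := Real.exp_pos 1
    have h7 : Real.exp 1 * (M * q / h) ≤ Real.exp 1 * (4 / 190) :=
      mul_le_mul_of_nonneg_left h2 h6.le
    have h8 : Real.exp 1 * (4 / 190) * Real.exp 1 ≤ 1 := by nlinarith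
    have h9 : Real.exp 1 * (4 / 190) ≤ Real.exp (-1) := by
      have h10 : Real.exp 1 * (4 / 190) * Real.exp 1 ≤ Real.exp (-1) * Real.exp 1 := by
        rw [h5]
        exact h8
      exact le_of_mul_le_mul_right h10 h6
    exact h7.trans h9
  have h2 := choose_pow_le M h hh q hq0 h1
  have h3 : 2 * (M : ℝ) / (((Y ^ 10)⁻¹) ^ 2 * (h : ℝ)) ≤ 1608 * Y ^ 21 := by
    rw [div_le_iff₀ (by positivity)]
    have h4 : (J : ℝ) ≤ 201 * Y := N.JY
    have h5 : 1608 * Y ^ 21 * (((Y ^ 10)⁻¹) ^ 2 * (h : ℝ)) = 1608 * Y * h := by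
      field_simp
    rw [h5]
    have h6 : 4 * J * (h : ℝ) ≤ 4 * (201 * Y) * h := by
      apply mul_le_mul_of_nonneg_right _ hhr.le
      linarith
    linarith
  have h5 : Real.exp (-h) ≤ Real.exp (-L) * (Real.exp (-L)) ^ 3 := by
    rw [← Real.exp_nat_mul, ← Real.exp_add]
    apply Real.exp_le_exp.2
    push_cast
    linarith
  have h6 : Real.exp (-L) ^ 3 * (1608 * Y ^ 21) ≤ 1 := by
    rw [Real.exp_neg, N.hexp]
    have h7 : 1608 * Y ^ 21 ≤ Y ^ 300 := N.big (by norm_num) (by norm_num)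
    have h8 : ((Y ^ 100)⁻¹) ^ 3 = (Y ^ 300)⁻¹ := by
      rw [inv_pow, ← pow_mul]
    rw [h8, inv_mul_le_iff₀ (by positivity), mul_one]
    exact h7
  calc (M.choose h : ℝ) * q ^ h * (2 * M / (((Y ^ 10)⁻¹) ^ 2 * (h : ℝ))) ≤
      Real.exp (-h) * (1608 * Y ^ 21) := mul_le_mul h2 h3 (by positivity) (Real.exp_pos _).le
    _ ≤ Real.exp (-L) * (Real.exp (-L)) ^ 3 * (1608 * Y ^ 21) :=
        mul_le_mul_of_nonneg_right h5 (by positivity)
    _ = Real.exp (-L) * (Real.exp (-L) ^ 3 * (1608 * Y ^ 21)) := by ring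
    _ ≤ Real.exp (-L) * 1 := mul_le_mul_of_nonneg_left h6 (Real.exp_pos _).le
    _ = _ := mul_one _

/-- all words -/
theorem words : Real.exp (-L) ^ (n / (200 * (M * J))) * 2 ^ K ≤ Real.exp (-Y ^ 80) := by
  have hY := N.Y0
  have hM := N.M0
  have hJ := N.J0
  have hJ0 : (0 : ℝ) < J := by linarith
  have hL := N.hL
  obtain ⟨m, hm⟩ : ∃ m : ℕ, m = n / (200 * (M * J)) := ⟨_, rfl⟩
  have h1 := N.m_ge
  rw [← hm] at h1 ⊢
  have h2 : (2 : ℝ) ^ K ≤ Real.exp K := by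
    have h3 : (2 : ℝ) ≤ Real.exp 1 := by
      have := Real.add_one_le_exp (1 : ℝ)
      linarith
    calc (2 : ℝ) ^ K ≤ Real.exp 1 ^ K := pow_le_pow_left₀ (by norm_num) h3 K
      _ = Real.exp K := by rw [← Real.exp_nat_mul, mul_one]
  rw [← Real.exp_nat_mul]
  calc Real.exp (m * -L) * 2 ^ K ≤ Real.exp (m * -L) * Real.exp K :=
        mul_le_mul_of_nonneg_left h2 (Real.exp_pos _).le
    _ = Real.exp (m * -L + K) := (Real.exp_add _ _).symm
    _ ≤ Real.exp (-Y ^ 80) := by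
      apply Real.exp_le_exp.2
      have h4 : (M : ℝ) * J ≤ Y ^ 10 * (201 * L) :=
        mul_le_mul N.hM2 N.hJ2 hJ0.le (by positivity)
      have h5 : Y ^ 100 ≤ ((m : ℝ) + 1) * (200 * (Y ^ 10 * (201 * L))) := by
        refine h1.trans ?_
        apply mul_le_mul_of_nonneg_left _ (by positivity)
        linarith
      have h6 : Y ^ 90 ≤ ((m : ℝ) + 1) * (40200 * L) := by
        have h7 : Y ^ 10 * Y ^ 90 ≤ Y ^ 10 * (((m : ℝ) + 1) * (40200 * L)) := by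
          calc Y ^ 10 * Y ^ 90 = Y ^ 100 := by ring
            _ ≤ _ := h5
            _ = _ := by ring
        exact le_of_mul_le_mul_left h7 (by positivity)
      have h8 : 10 ^ 12 * Y ^ 80 ≤ Y ^ 90 := N.big le_rfl (by norm_num)
      have h9 : 1 * Y ^ 1 ≤ Y ^ 80 := N.big (by norm_num) (by norm_num)
      rw [pow_one, one_mul] at h9
      have h10 := N.hK
      have h11 := N.hLY
      nlinarith

end Nums

end Pool.Agent.Helper60.FS
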