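import Pool.Agent.Helper38.FS.Goals
import Pool.Agent.Helper77.FS.Law
import Pool.Agent.Helper60.FS.Sl
import Pool.Agent.Helper60.FS.SlNum

/-!
# The sampler lemma with the final parameters (MP_75608d_al)
-/

set_option autoImplicit false
set_option linter.unusedSectionVars false

namespace Pool.Agent.Helper60.FS

open Finset Equiv
open Pool.Agent.Helper3.AK (Alt TupleGap lazyLaw)
open Pool.Agent.Helper38.FS (Lt Sy Wd prW up pm NE Good GD SP jj f0)
open Pool.Agent.Helper96.FS (Sampler)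

/-! ### Bridges -/

theorem push_eq {K : ℕ} (l : Lt K) (v : List (Lt K)) :
    Pool.Agent.Helper38.FS.push l v = Pool.Agent.Helper77.FS.push l v := by
  unfold Pool.Agent.Helper77.FS.push
  cases v with
  | nil => rfl
  | cons a v =>
    show (if a = Pool.Agent.Helper38.FS.inv l then v else l :: a :: v) = _
    rw [List.head?_cons, List.tail_cons]
    by_cases h : a = Pool.Agent.Helper38.FS.inv l
    · rw [if_pos h, if_pos (by rw [h]; rfl)]
    · rw [if_neg h, if_neg fun h2 => h (by injection h2)]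

theorem rdw_eq {K : ℕ} : ∀ (J : ℕ) (w : Wd K J), Pool.Agent.Helper38.FS.rdw J w =
    Pool.Agent.Helper77.FS.rdw J (fun i => w (Fin.rev i))
  | 0, _ => rfl
  | J + 1, w => by
    have h1 : (Fin.init fun i : Fin (J + 1) => w (Fin.rev i)) = fun i => Fin.tail w (Fin.rev i) := by
      funext i
      show w (Fin.rev (Fin.castSucc i)) = w (Fin.succ (Fin.rev i))
      rw [Fin.rev_castSucc]
    rw [Pool.Agent.Helper77.FS.rdw_succ]
    show (if (w 0).1 = true then Pool.Agent.Helper38.FS.push (w 0).2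
      (Pool.Agent.Helper38.FS.rdw J (Fin.tail w)) else
        Pool.Agent.Helper38.FS.rdw J (Fin.tail w)) = _
    rw [Fin.rev_last, rdw_eq J (Fin.tail w), push_eq, h1]

theorem pm_eq {n K : ℕ} (z : Fin K → Perm (Fin n)) : ∀ v : List (Lt K),
    pm z v = Pool.Agent.Helper77.FS.prm z v
  | [] => rfl
  | l :: v => by
    show pm z v * _ = Pool.Agent.Helper77.FS.prm z v * _
    rw [pm_eq z v]
    rfl

theorem pm_apply {n K : ℕ} (z : Fin K → Perm (Fin n)) (v : List (Lt K)) (x : Fin n) :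
    pm z v x = run z v x := by
  rw [pm_eq]
  exact Pool.Agent.Helper77.FS.prm_apply z v x

/-- the words in reversed order -/
def revW (K J : ℕ) : Wd K J ≃ Wd K J where
  toFun w := fun i => w (Fin.rev i)
  invFun w := fun i => w (Fin.rev i)
  left_inv w := by
    funext i
    show w (Fin.rev (Fin.rev i)) = w i
    rw [Fin.rev_rev]
  right_inv w := by
    funext i
    show w (Fin.rev (Fin.rev i)) = w i
    rw [Fin.rev_rev]

theorem law_eq {n K : ℕ} (hK : 0 < K) (z : Fin K → Alt n) (F : Perm (Fin n) → ℝ) (J : ℕ) :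
    ∑ g, lazyLaw z J g * F g = ((4 * (K : ℝ)) ^ J)⁻¹ *
      ∑ w : Wd K J, F (pm (up z) (Pool.Agent.Helper38.FS.rdw J w)) := by
  rw [Pool.Agent.Helper77.FS.law_eq hK z F J]
  congr 1
  rw [← (revW K J).sum_comp]
  apply sum_congr rfl
  intro w _
  rw [rdw_eq, pm_eq]
  rfl

theorem rdw_reduced {K J : ℕ} (w : Wd K J) :
    FreeGroup.IsReduced (Pool.Agent.Helper38.FS.rdw J w) := by
  rw [rdw_eq]
  exact Pool.Agent.Helper77.FS.rdw_reduced _ _

theorem rdw_length_le {K J : ℕ} (w : Wd K J) :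
    (Pool.Agent.Helper38.FS.rdw J w).length ≤ J := by
  rw [rdw_eq]
  exact Pool.Agent.Helper77.FS.rdw_length_le _ _

theorem card_Wd (K J : ℕ) : Fintype.card (Wd K J) = (4 * K) ^ J := by
  rw [Fintype.card_fun, Fintype.card_prod, Fintype.card_prod, Fintype.card_bool,
    Fintype.card_fin, Fintype.card_fin]
  congr 1
  ring

section vs

variable {ι α : Type} [Fintype ι] [DecidableEq ι] [Fintype α] [DecidableEq α]

theorem mem_vs (z : ι → Perm α) : ∀ (w : List (ι × Bool)) (v u : α),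
    u ∈ vs z w v ↔ ∃ t ≤ w.length, run z (w.take t) v = u
  | [], v, u => by
    show u ∈ ({v} : Finset α) ↔ _
    rw [mem_singleton]
    constructor
    · rintro rfl
      exact ⟨0, le_rfl, rfl⟩
    · rintro ⟨t, -, ht⟩
      rw [List.take_nil] at ht
      exact ht.symm
  | l :: w, v, u => by
    show u ∈ insert v (vs z w (act z l v)) ↔ _
    rw [mem_insert, mem_vs z w]
    constructor
    · rintro (rfl | ⟨t, ht, h⟩)
      · exact ⟨0, Nat.zero_le _, rfl⟩
      · exact ⟨t + 1, by rw [List.length_cons]; omega, h⟩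
    · rintro ⟨t, ht, h⟩
      cases t with
      | zero =>
        left
        exact h.symm
      | succ t =>
        right
        rw [List.length_cons] at ht
        exact ⟨t, by omega, h⟩

end vs

theorem exits_of_not_NE {n K : ℕ} {z : Fin K → Perm (Fin n)} {U P : Finset (Fin n)} {j0 : ℕ}
    {v : List (Lt K)} (hv : v ≠ []) (h : ¬ NE z U P j0 v) : Exits z v P U := by
  refine ⟨hv, fun p hp => ?_⟩
  unfold NE at h
  push Not at h
  obtain ⟨t, -, ht, hU, hp'⟩ := h p hp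
  refine ⟨run z (v.take t) p, (mem_vs z v p _).2 ⟨t, ht, rfl⟩, hU, fun p2 hp2 hne hmem => ?_⟩
  obtain ⟨t', ht', he⟩ := (mem_vs z v p2 _).1 hmem
  exact hp' p2 hp2 hne t' ht' he.symm

/-! ### Even permutations -/

theorem up_injective {n K : ℕ} : Function.Injective (up : (Fin K → Alt n) → _) := by
  intro z z' h
  funext i
  exact Subtype.ext (congrFun h i)

theorem card_perm_pow {n K : ℕ} (hn : 2 ≤ n) : (Fintype.card (Fin K → Perm (Fin n)) : ℝ) =
    2 ^ K * (Fintype.card (Fin K → Alt n) : ℝ) := by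
  have : Nontrivial (Fin n) := Fin.nontrivial_iff_two_le.2 hn
  have h1 : 2 * Fintype.card (Alt n) = Fintype.card (Perm (Fin n)) :=
    two_mul_card_alternatingGroup
  rw [Fintype.card_fun, Fintype.card_fun, ← h1, Fintype.card_fin]
  push_cast
  rw [mul_pow]

open scoped Classical in
theorem card_alt_le {n K : ℕ} (Q : (Fin K → Perm (Fin n)) → Prop) :
    (univ.filter fun z : Fin K → Alt n => Q (up z)).card ≤
      (univ.filter fun z : Fin K → Perm (Fin n) => Q z).card := by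
  apply card_le_card_of_injOn up
  · intro z hz
    have := (mem_filter.1 (mem_coe.1 hz)).2
    exact mem_coe.2 (mem_filter.2 ⟨mem_univ _, this⟩)
  · intro a _ b _ hab
    exact up_injective hab

/-! ### The numbers -/

theorem rpow_pow {n : ℕ} (k : ℕ) (a : ℝ) (ha : 0.01 * (k : ℝ) = a) :
    ((n : ℝ) ^ (0.01 : ℝ)) ^ k = (n : ℝ) ^ a := by
  rw [← Real.rpow_natCast, ← Real.rpow_mul (Nat.cast_nonneg _), ha]

theorem rpow_neg_pow {n : ℕ} (k : ℕ) (a : ℝ) (ha : 0.01 * (k : ℝ) = a) :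
    (n : ℝ) ^ (-a) = (((n : ℝ) ^ (0.01 : ℝ)) ^ k)⁻¹ := by
  rw [rpow_pow k a ha, Real.rpow_neg (Nat.cast_nonneg _)]

theorem nums_ev (K : ℕ) : ∃ n₀ : ℕ, ∀ n, n₀ ≤ n → ∀ M : ℕ, 4000 * Real.log n ^ 2 ≤ (M : ℝ) →
    (M : ℝ) ≤ (n : ℝ) ^ (0.1 : ℝ) →
    Nums n (jj n) M (f0 n) K ((n : ℝ) ^ (0.01 : ℝ)) (Real.log n) := by
  have hnat : Filter.Tendsto (fun n : ℕ => (n : ℝ)) Filter.atTop Filter.atTop :=
    tendsto_natCast_atTop_atTop
  have h1 : ∀ᶠ n : ℕ in Filter.atTop, (10 : ℝ) ^ 12 ≤ (n : ℝ) ^ (0.01 : ℝ) :=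
    ((tendsto_rpow_atTop (by norm_num : (0 : ℝ) < 0.01)).comp hnat).eventually_ge_atTop _
  have h2 : ∀ᶠ n : ℕ in Filter.atTop, (K : ℝ) ≤ (n : ℝ) ^ (0.01 : ℝ) :=
    ((tendsto_rpow_atTop (by norm_num : (0 : ℝ) < 0.01)).comp hnat).eventually_ge_atTop _
  have h3 : ∀ᶠ n : ℕ in Filter.atTop, (100 : ℝ) ≤ Real.log n :=
    (Real.tendsto_log_atTop.comp hnat).eventually_ge_atTop _
  have h4 : ∀ᶠ x : ℝ in Filter.atTop, Real.log x ≤ x ^ (0.01 : ℝ) := by
    have h5 := (isLittleO_log_rpow_atTop (by norm_num : (0 : ℝ) < 0.01)).bound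
      (show (0 : ℝ) < 1 by norm_num)
    filter_upwards [h5, Filter.eventually_ge_atTop (1 : ℝ)] with x hx hx1
    rw [one_mul, Real.norm_eq_abs, Real.norm_eq_abs, abs_of_nonneg (Real.log_nonneg hx1),
      abs_of_nonneg (Real.rpow_nonneg (by linarith) _)] at hx
    exact hx
  have h5 := hnat.eventually h4
  obtain ⟨n₀, hn₀⟩ := Filter.eventually_atTop.1 (h1.and (h2.and (h3.and h5)))
  refine ⟨max n₀ 1, fun n hn M hM1 hM2 => ?_⟩
  obtain ⟨g1, g2, g3, g4⟩ := hn₀ n ((le_max_left _ _).trans hn)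
  have hn1 : (0 : ℝ) < (n : ℝ) := by
    have : 1 ≤ n := (le_max_right _ _).trans hn
    exact_mod_cast this
  have hlog0 : 0 ≤ 100 * Real.log n := by linarith
  have hY100 : ((n : ℝ) ^ (0.01 : ℝ)) ^ 100 = (n : ℝ) := by
    rw [rpow_pow 100 1 (by norm_num), Real.rpow_one]
  refine ⟨g1, hY100.symm, g3, g4, ?_, ?_, ?_, hM1, ?_, ?_, g2⟩
  · rw [Real.exp_log hn1, hY100]
  · unfold jj
    push_cast
    have := Nat.le_ceil (100 * Real.log n)
    linarith
  · unfold jj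
    push_cast
    have := Nat.ceil_lt_add_one hlog0
    linarith
  · rw [rpow_pow 10 0.1 (by norm_num)]
    exact hM2
  · unfold f0
    rw [rpow_pow 60 0.6 (by norm_num)]
    exact (Nat.ceil_lt_add_one (Real.rpow_nonneg hn1.le _)).le

/-! ### Assembly -/

open scoped Classical in
theorem prW_eq {K J : ℕ} (A : Wd K J → Prop) :
    prW K J A = ∑ w : Wd K J, ((4 * (K : ℝ)) ^ J)⁻¹ * (if A w then (1 : ℝ) else 0) := by
  unfold prW
  rw [← mul_sum, sum_boole, div_eq_inv_mul]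

open scoped Classical in
theorem exitf_of {n K : ℕ} (z : Fin K → Alt n) (P : Finset (Fin n))
    (hJ : 10 ≤ jj n) (v0 : ℕ) (hv0 : 50 * v0 ≤ n) (e1 e2 : ℝ)
    (h1 : ∀ U : Finset (Fin n), 50 * U.card ≤ n → prW K (jj n) (fun w =>
      NE (up z) U P (jj n / 20) (Pool.Agent.Helper38.FS.rdw (jj n) w) ∨
        (Pool.Agent.Helper38.FS.rdw (jj n) w).length < jj n / 10) ≤ e1)
    (h2 : prW K (jj n) (fun w => ¬ FIX (up z) (Pool.Agent.Helper38.FS.rdw (jj n) w) (f0 n)) ≤ e2) :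
    EXITF P (f0 n) v0 (fun _ : Wd K (jj n) => ((4 * (K : ℝ)) ^ jj n)⁻¹)
      (Pool.Agent.Helper38.FS.rdw (jj n)) (e1 + e2) (up z) := by
  intro V hV
  have h3 := h1 V (by omega)
  rw [prW_eq] at h2 h3
  refine le_trans ?_ (add_le_add h3 h2)
  rw [← sum_add_distrib]
  apply sum_le_sum
  intro w _
  rw [← mul_add]
  apply mul_le_mul_of_nonneg_left _ (by positivity)
  by_cases hA : NE (up z) V P (jj n / 20) (Pool.Agent.Helper38.FS.rdw (jj n) w) ∨
      (Pool.Agent.Helper38.FS.rdw (jj n) w).length < jj n / 10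
  · rw [if_pos hA]
    split_ifs <;> norm_num
  · rw [if_neg hA]
    rw [not_or] at hA
    by_cases hB : FIX (up z) (Pool.Agent.Helper38.FS.rdw (jj n) w) (f0 n)
    · have hne : Pool.Agent.Helper38.FS.rdw (jj n) w ≠ [] := by
        intro h0
        apply hA.2
        rw [h0, List.length_nil]
        omega
      rw [if_pos ⟨exits_of_not_NE hne hA.1, hB⟩]
      split_ifs <;> norm_num
    · rw [if_pos hB]
      split_ifs <;> norm_num

open scoped Classical in
theorem sampler_sum {n K : ℕ} (hK : 0 < K) (z : Fin K → Alt n) (P R : Finset (Fin n)) (J : ℕ) :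
    ∑ g : Perm (Fin n), lazyLaw z J g *
      (if P.card ≤ 16 * (P.filter fun q => g⁻¹ q ∈ R).card then (1 : ℝ) else 0) =
    ∑ w : Wd K J, ((4 * (K : ℝ)) ^ J)⁻¹ * (if 1 / 16 * (P.card : ℝ) ≤
      ((P.filter fun q => run (up z) (Pool.Agent.Helper38.FS.rdw J w) q ∈ R).card : ℝ)
        then (1 : ℝ) else 0) := by
  have h1 : ∑ g : Perm (Fin n), lazyLaw z J g *
      (if P.card ≤ 16 * (P.filter fun q => g⁻¹ q ∈ R).card then (1 : ℝ) else 0) =
      ∑ g : Perm (Fin n), lazyLaw z J g *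
        (if P.card ≤ 16 * (P.filter fun q => g q ∈ R).card then (1 : ℝ) else 0) := by
    rw [← Equiv.sum_comp (Equiv.inv (Perm (Fin n)))]
    apply sum_congr rfl
    intro g _
    rw [Equiv.inv_apply, Pool.Agent.Helper77.FS.lazy_symm, inv_inv]
  rw [h1, law_eq hK z (fun g => if P.card ≤ 16 * (P.filter fun q => g q ∈ R).card then (1 : ℝ)
    else 0) J, mul_sum]
  apply sum_congr rfl
  intro w _
  congr 1
  simp only [pm_apply]
  have h2 : (P.card ≤ 16 * (P.filter fun q => run (up z)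
      (Pool.Agent.Helper38.FS.rdw J w) q ∈ R).card) ↔ (1 / 16 * (P.card : ℝ) ≤
      ((P.filter fun q => run (up z) (Pool.Agent.Helper38.FS.rdw J w) q ∈ R).card : ℝ)) := by
    constructor
    · intro h
      have h3 : (P.card : ℝ) ≤ 16 * ((P.filter fun q => run (up z)
        (Pool.Agent.Helper38.FS.rdw J w) q ∈ R).card : ℝ) := by exact_mod_cast h
      linarith
    · intro h
      have h3 : (P.card : ℝ) ≤ 16 * ((P.filter fun q => run (up z)
        (Pool.Agent.Helper38.FS.rdw J w) q ∈ R).card : ℝ) := by linarith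
      exact_mod_cast h3
  by_cases h3 : P.card ≤ 16 * (P.filter fun q => run (up z)
      (Pool.Agent.Helper38.FS.rdw J w) q ∈ R).card
  · rw [if_pos h3, if_pos (h2.1 h3)]
  · rw [if_neg h3, if_neg fun h4 => h3 (h2.2 h4)]

/-- **The sampler lemma with the final parameters.** -/
theorem S_SL_of (hE : Pool.Agent.Helper38.FS.S_EXIT) : Pool.Agent.Helper38.FS.S_SL := by
  classical
  intro K hK
  obtain ⟨n1, hn1⟩ := hE K hK
  obtain ⟨n2, hn2⟩ := nums_ev K
  refine ⟨max n1 (max n2 2), fun n hn P hP1 hP2 => ?_⟩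
  have hna : n1 ≤ n := (le_max_left _ _).trans hn
  have hnb : n2 ≤ n := ((le_max_left _ _).trans (le_max_right _ _)).trans hn
  have hnc : 2 ≤ n := ((le_max_right _ _).trans (le_max_right _ _)).trans hn
  have N := hn2 n hnb P.card hP1 hP2
  have hK0 : 0 < K := by omega
  have hKr : (0 : ℝ) < (K : ℝ) := by exact_mod_cast hK0
  obtain ⟨J, hJ⟩ : ∃ J, J = jj n := ⟨_, rfl⟩
  obtain ⟨F0, hF0⟩ : ∃ F0, F0 = f0 n := ⟨_, rfl⟩
  obtain ⟨Y, hY⟩ : ∃ Y : ℝ, Y = (n : ℝ) ^ (0.01 : ℝ) := ⟨_, rfl⟩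
  obtain ⟨M, hM⟩ : ∃ M, M = P.card := ⟨_, rfl⟩
  obtain ⟨L, hL⟩ : ∃ L : ℝ, L = Real.log n := ⟨_, rfl⟩
  rw [← hJ, ← hF0, ← hY, ← hM, ← hL] at N
  obtain ⟨m, hm⟩ : ∃ m, m = n / (200 * (M * J)) := ⟨_, rfl⟩
  obtain ⟨h, hh⟩ : ∃ h, h = M / (3 * J) := ⟨_, rfl⟩
  have hJ0 : 10 ≤ J := by
    have h1 := N.J0
    have h2 : (10 : ℝ) ≤ (J : ℝ) := by linarith
    exact_mod_cast h2
  -- the bad families
  have hbad : ∀ z : Fin K → Alt n, GD z → ¬ SP z P →
      Bad2 P F0 (n / 50) (fun _ : Wd K J => ((4 * (K : ℝ)) ^ J)⁻¹)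
        (Pool.Agent.Helper38.FS.rdw J) ((Y ^ 30)⁻¹ + (Y ^ 40)⁻¹) (Y ^ 10)⁻¹ (1 / 16)
        ((n / 51200 : ℕ) : ℝ) (up z) := by
    intro z hG hS
    refine ⟨?_, ?_⟩
    · have h1 := exitf_of z P (by rw [← hJ]; exact hJ0) (n / 50) (Nat.mul_div_le n 50)
        ((n : ℝ) ^ (-0.3 : ℝ)) ((n : ℝ) ^ (-0.4 : ℝ))
        (fun U hU => hn1 n hna z hG.g1 hG.g2 P U hP2 hU) hG.fx
      rw [rpow_neg_pow 30 0.3 (by norm_num), rpow_neg_pow 40 0.4 (by norm_num), ← hJ, ← hF0,
        ← hY] at h1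
      exact h1
    · unfold SP Sampler at hS
      push Not at hS
      obtain ⟨R, hR, hlt⟩ := hS
      refine ⟨R, by exact_mod_cast hR, ?_⟩
      rw [rpow_neg_pow 10 0.1 (by norm_num), ← hY, ← hJ] at hlt
      have h1 := sampler_sum hK0 z P R J
      rw [← h1]
      refine lt_of_lt_of_eq hlt ?_
      apply sum_congr rfl
      intro g _
      congr 1
  have hpos := N.pos
  have hconv := N.conv
  have herr := N.err
  have hword := N.word
  have hwords := N.words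
  have hhp := N.h_pos
  have hc1 := N.c1
  have hc2 := N.c2
  have hMp : 0 < M := by
    have := N.M0
    exact_mod_cast this
  rw [← hm] at hpos hconv hword hwords hc1 hc2
  rw [← hh] at hconv herr hword hhp
  rw [hM] at hconv herr hword hpos hc1 hc2 hMp
  have hD0 : 0 < n - n / 100 := by omega
  have hY0 := N.Y0
  have hsl := sl2 P F0 h J (n / 50) (fun _ : Wd K J => ((4 * (K : ℝ)) ^ J)⁻¹)
    (Pool.Agent.Helper38.FS.rdw J) ((Y ^ 30)⁻¹ + (Y ^ 40)⁻¹)
    (fun _ => by positivity)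
    (by
      rw [sum_const, card_univ, card_Wd, nsmul_eq_mul]
      push_cast
      exact mul_inv_cancel₀ (by positivity))
    (fun w => rdw_reduced w) (fun w => rdw_length_le w) hMp hhp m hc1
    ((n / 51200 : ℕ) : ℝ) (1 / 16) (Y ^ 10)⁻¹ (by positivity) (by norm_num) hpos hconv herr
    (n - n / 100) hD0 (by rw [Fintype.card_fin]; exact hc2)
  have hcount : ((univ.filter fun z : Fin K → Alt n => GD z ∧ ¬ SP z P).card : ℝ) ≤
      ((univ.filter fun z : Fin K → Perm (Fin n) =>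
        Bad2 P F0 (n / 50) (fun _ : Wd K J => ((4 * (K : ℝ)) ^ J)⁻¹)
          (Pool.Agent.Helper38.FS.rdw J) ((Y ^ 30)⁻¹ + (Y ^ 40)⁻¹) (Y ^ 10)⁻¹ (1 / 16)
          ((n / 51200 : ℕ) : ℝ) z).card : ℝ) := by
    have h1 := card_alt_le (n := n) (K := K) fun z =>
      Bad2 P F0 (n / 50) (fun _ : Wd K J => ((4 * (K : ℝ)) ^ J)⁻¹)
          (Pool.Agent.Helper38.FS.rdw J) ((Y ^ 30)⁻¹ + (Y ^ 40)⁻¹) (Y ^ 10)⁻¹ (1 / 16)
          ((n / 51200 : ℕ) : ℝ) z
    have h2 : (univ.filter fun z : Fin K → Alt n => GD z ∧ ¬ SP z P).card ≤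
        (univ.filter fun z : Fin K → Alt n => Bad2 P F0 (n / 50)
          (fun _ : Wd K J => ((4 * (K : ℝ)) ^ J)⁻¹)
          (Pool.Agent.Helper38.FS.rdw J) ((Y ^ 30)⁻¹ + (Y ^ 40)⁻¹) (Y ^ 10)⁻¹ (1 / 16)
          ((n / 51200 : ℕ) : ℝ) (up z)).card := by
      apply card_le_card
      intro z hz
      rw [mem_filter] at hz ⊢
      exact ⟨hz.1, hbad z hz.2.1 hz.2.2⟩
    exact_mod_cast h2.trans h1
  have hfin : ((univ.filter fun z : Fin K → Alt n => GD z ∧ ¬ SP z P).card : ℝ) ≤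
      Real.exp (-Y ^ 80) * (Fintype.card (Fin K → Alt n) : ℝ) := by
    refine hcount.trans (hsl.trans ?_)
    rw [card_perm_pow hnc]
    have h1 : ((P.card.choose h : ℝ) * (((m : ℝ) * P.card + (J : ℝ) ^ 2 * (1 + (F0 : ℝ))) /
        ((n - n / 100 : ℕ) : ℝ)) ^ h * (2 * P.card / (((Y ^ 10)⁻¹) ^ 2 * h))) ^ m ≤
        Real.exp (-L) ^ m := pow_le_pow_left₀ (by positivity) hword m
    calc _ ≤ Real.exp (-L) ^ m * (2 ^ K * (Fintype.card (Fin K → Alt n) : ℝ)) :=
          mul_le_mul_of_nonneg_right h1 (by positivity)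
      _ = Real.exp (-L) ^ m * 2 ^ K * (Fintype.card (Fin K → Alt n) : ℝ) := by ring
      _ ≤ _ := mul_le_mul_of_nonneg_right hwords (Nat.cast_nonneg _)
  have h80 : (n : ℝ) ^ (0.8 : ℝ) = Y ^ 80 := by
    rw [hY, rpow_pow 80 0.8 (by norm_num)]
  rw [h80]
  convert hfin using 3

end Pool.Agent.Helper60.FS
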