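import Pool.Agent.Helper60.FS.Land

/-!
# The sampler lemma, counting part (MP_75608d_al)
-/

set_option autoImplicit false
set_option linter.unusedSectionVars false

namespace Pool.Agent.Helper60.FS

open Finset Equiv

variable {ι α : Type} [Fintype ι] [DecidableEq ι] [Fintype α] [DecidableEq α]

theorem mem_ZZ_union (H H' : Finset (ι × α × α)) (z : ι → Perm α) :
    z ∈ ZZ (H ∪ H') ↔ z ∈ ZZ H ∧ z ∈ ZZ H' := by
  rw [mem_ZZ, mem_ZZ, mem_ZZ]
  constructor
  · intro h
    exact ⟨fun e he => h e (mem_union_left _ he), fun e he => h e (mem_union_right _ he)⟩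
  · rintro ⟨h1, h2⟩ e he
    rcases mem_union.1 he with h | h
    · exact h1 e h
    · exact h2 e h

/-- an exposure beyond the known edges `H` -/
structure Expo (H : Finset (ι × α × α)) (X : (ι → Perm α) → Finset (ι × α × α)) : Prop where
  mem : ∀ z ∈ ZZ H, z ∈ ZZ (X z)
  sub : ∀ z ∈ ZZ H, H ⊆ X z
  det : ∀ z ∈ ZZ H, ∀ z' ∈ ZZ (X z), X z' = X z

theorem expose_sum {H : Finset (ι × α × α)} {X : (ι → Perm α) → Finset (ι × α × α)}
    (hX : Expo H X) (G : (ι → Perm α) → ℝ) (B : ℝ)
    (h : ∀ z ∈ ZZ H, ∑ z' ∈ ZZ (X z), G z' ≤ B * ((ZZ (X z)).card : ℝ)) :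
    ∑ z ∈ ZZ H, G z ≤ B * ((ZZ H).card : ℝ) := by
  classical
  have hfib : ∀ z ∈ ZZ H, (ZZ H).filter (fun z' => X z' = X z) = ZZ (X z) := by
    intro z hz
    ext z'
    rw [mem_filter]
    constructor
    · rintro ⟨h1, h2⟩
      have h3 := hX.mem z' h1
      rw [h2] at h3
      exact h3
    · intro h1
      exact ⟨ZZ_anti (hX.sub z hz) h1, hX.det z hz z' h1⟩
  have h1 : ∑ z ∈ ZZ H, G z = ∑ H1 ∈ (ZZ H).image X, ∑ z ∈ (ZZ H).filter (fun z' => X z' = H1),
      G z := (sum_fiberwise_of_maps_to (fun z hz => mem_image_of_mem X hz) G).symm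
  have h2 : ((ZZ H).card : ℝ) = ∑ H1 ∈ (ZZ H).image X,
      (((ZZ H).filter (fun z' => X z' = H1)).card : ℝ) := by
    have := card_eq_sum_card_fiberwise (f := X) (s := ZZ H) (t := (ZZ H).image X)
      fun z hz => mem_coe.2 (mem_image_of_mem X hz)
    exact_mod_cast this
  rw [h1, h2, mul_sum]
  apply sum_le_sum
  intro H1 hH1
  rw [mem_image] at hH1
  obtain ⟨z, hz, rfl⟩ := hH1
  rw [hfib z hz]
  exact h z hz

/-- all edges of the paths starting in `P` -/
def allpe (z : ι → Perm α) (w : List (ι × Bool)) (P : Finset α) : Finset (ι × α × α) :=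
  P.biUnion (pe z w)

theorem pe_congr {z z' : ι → Perm α} {w : List (ι × Bool)} {v : α} (h : z' ∈ ZZ (pe z w v)) :
    pe z' w v = pe z w v ∧ run z' w v = run z w v := known_congr h w v (Subset.refl _)

theorem pe_congr' {H : Finset (ι × α × α)} {z z' : ι → Perm α} {w : List (ι × Bool)} {v : α}
    (h : z' ∈ ZZ H) (hs : pe z w v ⊆ H) :
    pe z' w v = pe z w v ∧ run z' w v = run z w v := known_congr h w v hs

theorem mem_allpe (z : ι → Perm α) (w : List (ι × Bool)) (P : Finset α) :
    z ∈ ZZ (allpe z w P) := by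
  rw [mem_ZZ]
  intro e he
  unfold allpe at he
  rw [mem_biUnion] at he
  obtain ⟨p, -, hp⟩ := he
  exact (mem_ZZ _ z).1 (pe_mem z w p) e hp

theorem allpe_congr {H : Finset (ι × α × α)} {z z' : ι → Perm α} {w : List (ι × Bool)}
    {P : Finset α} (h : z' ∈ ZZ H) (hs : allpe z w P ⊆ H) :
    allpe z' w P = allpe z w P ∧ ∀ p ∈ P, run z' w p = run z w p := by
  have h1 : ∀ p ∈ P, pe z' w p = pe z w p ∧ run z' w p = run z w p := fun p hp =>
    pe_congr' h fun e he => hs (mem_biUnion.2 ⟨p, hp, he⟩)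
  refine ⟨?_, fun p hp => (h1 p hp).2⟩
  unfold allpe
  exact biUnion_congr rfl fun p hp => (h1 p hp).1

theorem card_allpe_le (z : ι → Perm α) (w : List (ι × Bool)) (P : Finset α) :
    (allpe z w P).card ≤ P.card * w.length := by
  unfold allpe
  refine card_biUnion_le.trans ?_
  calc ∑ p ∈ P, (pe z w p).card ≤ ∑ _p ∈ P, w.length := sum_le_sum fun p _ => card_pe_le z w p
    _ = _ := by rw [sum_const, smul_eq_mul]

theorem expo_pe (H : Finset (ι × α × α)) (w : List (ι × Bool)) (v : α) :
    Expo H fun z => H ∪ pe z w v where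
  mem z hz := (mem_ZZ_union _ _ _).2 ⟨hz, pe_mem z w v⟩
  sub _ _ := subset_union_left
  det z _ z' hz' := by
    rw [(pe_congr ((mem_ZZ_union _ _ _).1 hz').2).1]

theorem expo_allpe (H : Finset (ι × α × α)) (w : List (ι × Bool)) (P : Finset α) :
    Expo H fun z => H ∪ allpe z w P where
  mem z hz := (mem_ZZ_union _ _ _).2 ⟨hz, mem_allpe z w P⟩
  sub _ _ := subset_union_left
  det z _ z' hz' := by
    rw [(allpe_congr hz' subset_union_right).1]

/-- the edges of the paths starting in a list of points -/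
def lpe (z : ι → Perm α) (w : List (ι × Bool)) : List α → Finset (ι × α × α)
  | [] => ∅
  | p :: ps => pe z w p ∪ lpe z w ps

/-- the points of the list land in `R` after a fresh path -/
def lands (z : ι → Perm α) (R : Finset α) (w : List (ι × Bool)) :
    Finset (ι × α × α) → List α → Prop
  | _, [] => True
  | H, p :: ps => ¬ pe z w p ⊆ H ∧ run z w p ∈ R ∧ lands z R w (H ∪ pe z w p) ps

open scoped Classical in
theorem multi_land (R : Finset α) (F0 D : ℕ) (hD0 : 0 < D) (G : (ι → Perm α) → ℝ)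
    (hG : ∀ z, 0 ≤ G z) (B : ℝ) (hB : 0 ≤ B) (w : List (ι × Bool))
    (hred : FreeGroup.IsReduced w) :
    ∀ (ps : List α) (H : Finset (ι × α × α)),
      D + H.card + (ps.length + 1) * w.length ≤ Fintype.card α + w.length →
      (∀ z ∈ ZZ H, ∑ z' ∈ ZZ (H ∪ lpe z w ps), G z' ≤ B * ((ZZ (H ∪ lpe z w ps)).card : ℝ)) →
      (D : ℝ) ^ ps.length * ∑ z ∈ ZZ H, (if lands z R w H ps ∧ FIX z w F0 then G z else 0) ≤
        B * ((ZZ H).card : ℝ) * ((R.card : ℝ) + (w.length : ℝ) ^ 2 * (1 + (F0 : ℝ))) ^ ps.length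
  | [], H, _, hfut => by
    rw [List.length_nil, pow_zero, pow_zero, one_mul, mul_one]
    by_cases hne : (ZZ H).Nonempty
    · obtain ⟨z, hz⟩ := hne
      have h1 := hfut z hz
      have h2 : H ∪ lpe z w [] = H := union_empty H
      rw [h2] at h1
      refine le_trans (sum_le_sum fun z _ => ?_) h1
      split_ifs
      · exact le_rfl
      · exact hG z
    · rw [not_nonempty_iff_eq_empty] at hne
      rw [hne]
      simp
  | p :: ps, H, hcard, hfut => by
    rw [List.length_cons] at hcard ⊢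
    obtain ⟨k, hk⟩ : ∃ k, k = ps.length := ⟨_, rfl⟩
    rw [← hk] at hcard ⊢
    obtain ⟨Q, hQ⟩ : ∃ Q : ℝ, Q = (R.card : ℝ) + (w.length : ℝ) ^ 2 * (1 + (F0 : ℝ)) := ⟨_, rfl⟩
    rw [← hQ]
    have hQ0 : 0 ≤ Q := by rw [hQ]; positivity
    have hDr : (0 : ℝ) < (D : ℝ) ^ k := pow_pos (by exact_mod_cast hD0) k
    have hfut1 : ∀ z ∈ ZZ H, ∑ z' ∈ ZZ (H ∪ pe z w p),
        (if lands z' R w (H ∪ pe z' w p) ps ∧ FIX z' w F0 then G z' else 0) ≤
          (B * Q ^ k / (D : ℝ) ^ k) * ((ZZ (H ∪ pe z w p)).card : ℝ) := by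
      intro z hz
      have h0 : (H ∪ pe z w p).card ≤ H.card + w.length :=
        (card_union_le _ _).trans (Nat.add_le_add_left (card_pe_le z w p) _)
      have h1 := multi_land R F0 D hD0 G hG B hB w hred ps (H ∪ pe z w p)
        (by rw [← hk]; nlinarith) (fun z' hz' => by
          have hz'' := (mem_ZZ_union _ _ _).1 hz'
          have h2 := hfut z' hz''.1
          have h3 : H ∪ lpe z' w (p :: ps) = H ∪ pe z w p ∪ lpe z' w ps := by
            show H ∪ (pe z' w p ∪ lpe z' w ps) = _
            rw [(pe_congr hz''.2).1, union_assoc]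
          rw [h3] at h2
          exact h2)
      rw [← hk, ← hQ] at h1
      have h2 : ∑ z' ∈ ZZ (H ∪ pe z w p),
          (if lands z' R w (H ∪ pe z' w p) ps ∧ FIX z' w F0 then G z' else 0) =
          ∑ z' ∈ ZZ (H ∪ pe z w p),
            (if lands z' R w (H ∪ pe z w p) ps ∧ FIX z' w F0 then G z' else 0) := by
        apply sum_congr rfl
        intro z' hz'
        rw [(pe_congr ((mem_ZZ_union _ _ _).1 hz').2).1]
      rw [h2, div_mul_eq_mul_div, le_div_iff₀ hDr, mul_comm]
      refine h1.trans (le_of_eq ?_)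
      ring
    have hmain := land R F0 D (fun z => if lands z R w (H ∪ pe z w p) ps ∧ FIX z w F0 then G z
      else 0) (fun z => by
        beta_reduce
        split_ifs
        · exact hG z
        · exact le_rfl) (B * Q ^ k / (D : ℝ) ^ k) (by positivity) w hred H p (by nlinarith) hfut1
    rw [← hQ] at hmain
    have heq : ∑ z ∈ ZZ H, (if lands z R w H (p :: ps) ∧ FIX z w F0 then G z else 0) =
        ∑ z ∈ ZZ H, (if ¬ pe z w p ⊆ H ∧ run z w p ∈ R ∧ FIX z w F0 then
          (if lands z R w (H ∪ pe z w p) ps ∧ FIX z w F0 then G z else 0) else 0) := by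
      apply sum_congr rfl
      intro z _
      rw [← ite_and]
      apply if_congr _ rfl rfl
      constructor
      · rintro ⟨⟨h1, h2, h3⟩, h4⟩
        exact ⟨⟨h1, h2, h4⟩, h3, h4⟩
      · rintro ⟨⟨h1, h2, h4⟩, h3, -⟩
        exact ⟨⟨h1, h2, h3⟩, h4⟩
    rw [heq]
    have h5 := mul_le_mul_of_nonneg_left hmain hDr.le
    calc _ = (D : ℝ) ^ k * ((D : ℝ) * ∑ z ∈ ZZ H, (if ¬ pe z w p ⊆ H ∧ run z w p ∈ R ∧
          FIX z w F0 then (if lands z R w (H ∪ pe z w p) ps ∧ FIX z w F0 then G z else 0)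
            else 0)) := by rw [pow_succ]; ring
      _ ≤ (D : ℝ) ^ k * (B * Q ^ k / (D : ℝ) ^ k * ((ZZ H).card : ℝ) * Q) := h5
      _ = B * ((ZZ H).card : ℝ) * Q ^ (k + 1) := by
        field_simp
        ring

/-- one further word is good: all its paths exit, at least `h` points land in `R`, few fixed
points -/
def Ok (P : Finset α) (F0 h : ℕ) (z : ι → Perm α) (R : Finset α) (H : Finset (ι × α × α))
    (w : List (ι × Bool)) : Prop :=
  (∀ p ∈ P, ¬ pe z w p ⊆ H ∪ (P.erase p).biUnion (pe z w)) ∧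
    h ≤ (P.filter fun p => run z w p ∈ R).card ∧ FIX z w F0

/-- all further words are good -/
def okl (P : Finset α) (F0 h : ℕ) (z : ι → Perm α) (R : Finset α) :
    Finset (ι × α × α) → (m : ℕ) → (Fin m → List (ι × Bool)) → Prop
  | _, 0, _ => True
  | H, m + 1, b => Ok P F0 h z R H (b 0) ∧
      okl P F0 h z R (H ∪ allpe z (b 0) P) m (fun i => b i.succ)

theorem lands_of (P : Finset α) (z : ι → Perm α) (R : Finset α) (H : Finset (ι × α × α))
    (w : List (ι × Bool)) (hP : ∀ p ∈ P, ¬ pe z w p ⊆ H ∪ (P.erase p).biUnion (pe z w)) :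
    ∀ (ps : List α) (H0 : Finset (ι × α × α)), ps.Nodup → (∀ p ∈ ps, p ∈ P ∧ run z w p ∈ R) →
      H0 ⊆ H ∪ (P \ ps.toFinset).biUnion (pe z w) → lands z R w H0 ps
  | [], _, _, _, _ => trivial
  | p :: ps, H0, hnd, hps, hH0 => by
    have hp := hps p (List.mem_cons_self)
    rw [List.nodup_cons] at hnd
    refine ⟨fun h => hP p hp.1 (h.trans (hH0.trans ?_)), hp.2, ?_⟩
    · apply union_subset_union_right
      apply biUnion_subset_biUnion_of_subset_left
      intro x hx
      rw [mem_sdiff, List.mem_toFinset, List.mem_cons, not_or] at hx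
      exact mem_erase.2 ⟨hx.2.1, hx.1⟩
    · apply lands_of P z R H w hP ps _ hnd.2 fun q hq => hps q (List.mem_cons_of_mem _ hq)
      apply union_subset
      · refine hH0.trans ?_
        apply union_subset_union_right
        apply biUnion_subset_biUnion_of_subset_left
        apply sdiff_subset_sdiff (Subset.refl _)
        intro x hx
        rw [List.mem_toFinset] at hx ⊢
        exact List.mem_cons_of_mem _ hx
      · refine Subset.trans ?_ subset_union_right
        apply subset_biUnion_of_mem (pe z w)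
        rw [mem_sdiff, List.mem_toFinset]
        exact ⟨hp.1, hnd.1⟩

theorem lpe_subset (z : ι → Perm α) (w : List (ι × Bool)) (P : Finset α) :
    ∀ ps : List α, (∀ p ∈ ps, p ∈ P) → lpe z w ps ⊆ allpe z w P
  | [], _ => empty_subset _
  | p :: ps, h => union_subset
      (subset_biUnion_of_mem (pe z w) (h p List.mem_cons_self))
      (lpe_subset z w P ps fun q hq => h q (List.mem_cons_of_mem _ hq))

theorem lpe_congr {z z' : ι → Perm α} {w : List (ι × Bool)} :
    ∀ ps : List α, z' ∈ ZZ (lpe z w ps) → lpe z' w ps = lpe z w ps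
  | [], _ => rfl
  | p :: ps, h => by
    have h1 := (mem_ZZ_union _ _ _).1 h
    show pe z' w p ∪ lpe z' w ps = _
    rw [(pe_congr h1.1).1, lpe_congr ps h1.2]
    rfl

open scoped Classical in
/-- **Counting part of the sampler lemma.** -/
theorem slc (P : Finset α) (F0 h D J : ℕ) (hD0 : 0 < D) (R : Finset α) :
    ∀ (m : ℕ) (b : Fin m → List (ι × Bool)) (H : Finset (ι × α × α)),
      (∀ i, FreeGroup.IsReduced (b i) ∧ (b i).length ≤ J) →
      D + H.card + m * (P.card * J) ≤ Fintype.card α →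
      ∑ z ∈ ZZ H, (if okl P F0 h z R H m b then (1 : ℝ) else 0) ≤
        ((P.card.choose h : ℝ) * (((R.card : ℝ) + (J : ℝ) ^ 2 * (1 + (F0 : ℝ))) / D) ^ h) ^ m *
          ((ZZ H).card : ℝ)
  | 0, b, H, _, _ => by
    rw [pow_zero, one_mul]
    have h1 : ∀ z ∈ ZZ H, (if okl P F0 h z R H 0 b then (1 : ℝ) else 0) ≤ 1 := by
      intro z _
      split_ifs <;> norm_num
    refine (sum_le_sum h1).trans (le_of_eq ?_)
    rw [sum_const, nsmul_eq_mul, mul_one]
  | m + 1, b, H, hb, hcard => by
    obtain ⟨w, hw⟩ : ∃ w, w = b 0 := ⟨_, rfl⟩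
    obtain ⟨b', hb'⟩ : ∃ b' : Fin m → List (ι × Bool), b' = fun i => b i.succ := ⟨_, rfl⟩
    have hwr : FreeGroup.IsReduced w := by rw [hw]; exact (hb 0).1
    have hwl : w.length ≤ J := by rw [hw]; exact (hb 0).2
    have hb1 : ∀ i, FreeGroup.IsReduced (b' i) ∧ (b' i).length ≤ J := fun i => by
      rw [hb']
      exact hb i.succ
    obtain ⟨c, hc⟩ : ∃ c : ℝ, c = (P.card.choose h : ℝ) *
        (((R.card : ℝ) + (J : ℝ) ^ 2 * (1 + (F0 : ℝ))) / D) ^ h := ⟨_, rfl⟩
    rw [← hc]
    have hc0 : 0 ≤ c := by rw [hc]; positivity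
    have hDr : (0 : ℝ) < (D : ℝ) := by exact_mod_cast hD0
    obtain ⟨G, hG⟩ : ∃ G : (ι → Perm α) → ℝ, G = fun z =>
        if okl P F0 h z R (H ∪ allpe z w P) m b' then (1 : ℝ) else 0 := ⟨_, rfl⟩
    have hG0 : ∀ z, 0 ≤ G z := fun z => by
      rw [hG]
      beta_reduce
      split_ifs <;> norm_num
    -- each set of landing points
    have hS : ∀ S ∈ P.powersetCard h, ∑ z ∈ ZZ H,
        (if lands z R w H S.toList ∧ FIX z w F0 then G z else 0) ≤
        c ^ m * ((ZZ H).card : ℝ) *
          (((R.card : ℝ) + (J : ℝ) ^ 2 * (1 + (F0 : ℝ))) / D) ^ h := by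
      intro S hS
      rw [mem_powersetCard] at hS
      have hSl : S.toList.length = h := by rw [length_toList, hS.2]
      have hhP : h ≤ P.card := by
        rw [← hS.2]
        exact card_le_card hS.1
      have hps : ∀ p ∈ S.toList, p ∈ P := fun p hp => hS.1 (mem_toList.1 hp)
      have hfut : ∀ z ∈ ZZ H, ∑ z' ∈ ZZ (H ∪ lpe z w S.toList), G z' ≤
          c ^ m * ((ZZ (H ∪ lpe z w S.toList)).card : ℝ) := by
        intro z _
        apply expose_sum (expo_allpe (H ∪ lpe z w S.toList) w P)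
        intro z' hz'
        have h1 : H ∪ lpe z w S.toList ∪ allpe z' w P = H ∪ allpe z' w P := by
          rw [union_assoc]
          congr 1
          apply union_eq_right.2
          rw [← lpe_congr S.toList ((mem_ZZ_union _ _ _).1 hz').2]
          exact lpe_subset z' w P _ hps
        beta_reduce
        rw [h1]
        have h2 : ∑ z'' ∈ ZZ (H ∪ allpe z' w P), G z'' = ∑ z'' ∈ ZZ (H ∪ allpe z' w P),
            (if okl P F0 h z'' R (H ∪ allpe z' w P) m b' then (1 : ℝ) else 0) := by
          apply sum_congr rfl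
          intro z'' hz''
          rw [hG]
          beta_reduce
          rw [(allpe_congr hz'' subset_union_right).1]
        rw [h2]
        have h3 : (H ∪ allpe z' w P).card ≤ H.card + P.card * J :=
          (card_union_le _ _).trans (Nat.add_le_add_left
            ((card_allpe_le z' w P).trans (Nat.mul_le_mul_left _ hwl)) _)
        have h4 := slc P F0 h D J hD0 R m b' (H ∪ allpe z' w P) hb1 (by
          rw [Nat.succ_mul] at hcard
          omega)
        rw [← hc] at h4
        exact h4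
      have hcard1 : D + H.card + (S.toList.length + 1) * w.length ≤
          Fintype.card α + w.length := by
        rw [hSl, Nat.succ_mul, ← add_assoc]
        apply Nat.add_le_add_right
        have h5 : h * w.length ≤ (m + 1) * (P.card * J) := by
          calc h * w.length ≤ P.card * J := Nat.mul_le_mul hhP hwl
            _ ≤ (m + 1) * (P.card * J) := Nat.le_mul_of_pos_left _ (Nat.succ_pos m)
        omega
      have h6 := multi_land R F0 D hD0 G hG0 (c ^ m) (pow_nonneg hc0 m) w hwr S.toList H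
        hcard1 hfut
      rw [hSl] at h6
      have hDh : (0 : ℝ) < (D : ℝ) ^ h := pow_pos hDr h
      rw [div_pow, ← mul_div_assoc, le_div_iff₀ hDh, mul_comm]
      refine h6.trans ?_
      apply mul_le_mul_of_nonneg_left _ (by positivity)
      apply pow_le_pow_left₀ (by positivity)
      have h7 : (w.length : ℝ) ≤ (J : ℝ) := by exact_mod_cast hwl
      have h8 : (w.length : ℝ) ^ 2 ≤ (J : ℝ) ^ 2 := pow_le_pow_left₀ (Nat.cast_nonneg _) h7 2
      have h9 := mul_le_mul_of_nonneg_right h8 (show (0 : ℝ) ≤ 1 + (F0 : ℝ) by positivity)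
      linarith
    -- some set of landing points
    have hle : ∀ z ∈ ZZ H, (if okl P F0 h z R H (m + 1) b then (1 : ℝ) else 0) ≤
        ∑ S ∈ P.powersetCard h, (if lands z R w H S.toList ∧ FIX z w F0 then G z else 0) := by
      intro z _
      have hnn : ∀ S ∈ P.powersetCard h, 0 ≤
          (if lands z R w H S.toList ∧ FIX z w F0 then G z else 0) := by
        intro S _
        split_ifs
        · exact hG0 z
        · exact le_rfl
      by_cases h1 : okl P F0 h z R H (m + 1) b
      · rw [if_pos h1]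
        obtain ⟨⟨h2, h3, h4⟩, h5⟩ := h1
        rw [← hw] at h2 h3 h4 h5
        rw [← hb'] at h5
        obtain ⟨S, hSs, hSc⟩ := exists_subset_card_eq h3
        have hSP : S ∈ P.powersetCard h := by
          rw [mem_powersetCard]
          exact ⟨hSs.trans (filter_subset _ _), hSc⟩
        have h6 : lands z R w H S.toList := by
          apply lands_of P z R H w h2 S.toList H (nodup_toList S)
          · intro p hp
            have h7 := mem_filter.1 (hSs (mem_toList.1 hp))
            exact h7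
          · exact subset_union_left
        have h7 : (if lands z R w H S.toList ∧ FIX z w F0 then G z else 0) = 1 := by
          rw [if_pos ⟨h6, h4⟩, hG]
          beta_reduce
          rw [if_pos h5]
        rw [← h7]
        exact single_le_sum hnn hSP
      · rw [if_neg h1]
        exact sum_nonneg hnn
    refine (sum_le_sum hle).trans ?_
    rw [sum_comm]
    refine (sum_le_sum hS).trans (le_of_eq ?_)
    rw [sum_const, card_powersetCard, nsmul_eq_mul]
    calc (P.card.choose h : ℝ) * (c ^ m * ((ZZ H).card : ℝ) *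
          (((R.card : ℝ) + (J : ℝ) ^ 2 * (1 + (F0 : ℝ))) / D) ^ h) =
        c ^ m * ((ZZ H).card : ℝ) * ((P.card.choose h : ℝ) *
          (((R.card : ℝ) + (J : ℝ) ^ 2 * (1 + (F0 : ℝ))) / D) ^ h) := by ring
      _ = c ^ (m + 1) * ((ZZ H).card : ℝ) := by
        rw [← hc]
        ring

end Pool.Agent.Helper60.FS
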